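import Pool.Agent.Lib.MP_0baf06_lc.Signs

/-!
The construction on the Hilbert space.
-/

open scoped InnerProductSpace BigOperators Topology

set_option linter.unusedSectionVars false

namespace Pool.Agent.Lib.MP_0baf06_lc

/-- The coordinates of the `k`-th block. -/
abbrev SS (k : ℕ) := Fin k → Bool

/-- The `k`-th block. -/
abbrev VV (k : ℕ) := V (SS k) ((DD k) ^ 2)

/-- The index set of the basis. -/
abbrev Idx := Σ k : ℕ, (SS k → Fin ((DD k) ^ 2))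

variable {H : Type*} [NormedAddCommGroup H] [InnerProductSpace ℂ H]

/-- The embedding of the `k`-th block. -/
noncomputable def J (b : Idx → H) (k : ℕ) : VV k →ₗ[ℂ] H where
  toFun f := ∑ ω, f ω • b ⟨k, ω⟩
  map_add' f g := by simp [add_smul, Finset.sum_add_distrib]
  map_smul' c f := by simp [Finset.smul_sum, mul_smul]

lemma J_apply (b : Idx → H) (k : ℕ) (f : VV k) : J b k f = ∑ ω, f ω • b ⟨k, ω⟩ := rfl

/-- The adjoint of the embedding of the `k`-th block. -/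
noncomputable def P (b : Idx → H) (k : ℕ) (x : H) : VV k :=
  WithLp.toLp 2 (fun ω => ⟪b ⟨k, ω⟩, x⟫_ℂ)

lemma inner_P (b : Idx → H) (k : ℕ) (x : H) (f : VV k) : ⟪P b k x, f⟫_ℂ = ⟪x, J b k f⟫_ℂ := by
  rw [J_apply, inner_sum, PiLp.inner_apply]
  refine Finset.sum_congr rfl (fun ω _ => ?_)
  rw [inner_smul_right, RCLike.inner_apply]
  simp only [P]
  rw [inner_conj_symm]

lemma inner_P' (b : Idx → H) (k : ℕ) (x : H) (f : VV k) : ⟪f, P b k x⟫_ℂ = ⟪J b k f, x⟫_ℂ := by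
  rw [← inner_conj_symm, inner_P, inner_conj_symm]

lemma P_J (b : Idx → H) (hb : Orthonormal ℂ b) (k : ℕ) (f : VV k) : P b k (J b k f) = f := by
  ext ω
  simp only [P, J_apply, inner_sum, inner_smul_right]
  have : ∀ ω', ⟪b ⟨k, ω⟩, b ⟨k, ω'⟩⟫_ℂ = if ω = ω' then 1 else 0 := by
    intro ω'
    rw [orthonormal_iff_ite.1 hb]
    simp
  simp [this]

lemma P_J_ne (b : Idx → H) (hb : Orthonormal ℂ b) {k l : ℕ} (h : k ≠ l) (f : VV l) :
    P b k (J b l f) = 0 := by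
  ext ω
  simp only [P, J_apply, inner_sum, inner_smul_right]
  have : ∀ ω', ⟪b ⟨k, ω⟩, b ⟨l, ω'⟩⟫_ℂ = 0 := by
    intro ω'
    rw [orthonormal_iff_ite.1 hb, if_neg]
    intro h'
    exact h (congrArg Sigma.fst h')
  simp [this]

lemma inner_J_J (b : Idx → H) (hb : Orthonormal ℂ b) (k : ℕ) (f g : VV k) :
    ⟪J b k f, J b k g⟫_ℂ = ⟪f, g⟫_ℂ := by
  rw [← inner_P', P_J b hb]

lemma inner_J_J_ne (b : Idx → H) (hb : Orthonormal ℂ b) {k l : ℕ} (h : k ≠ l) (f : VV k)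
    (g : VV l) : ⟪J b k f, J b l g⟫_ℂ = 0 := by
  rw [← inner_P', P_J_ne b hb h, inner_zero_right]

lemma norm_J (b : Idx → H) (hb : Orthonormal ℂ b) (k : ℕ) (f : VV k) : ‖J b k f‖ = ‖f‖ := by
  have h : (‖J b k f‖ ^ 2 : ℝ) = ‖f‖ ^ 2 := by
    have h1 := inner_J_J b hb k f f
    rw [inner_self_eq_norm_sq_to_K, inner_self_eq_norm_sq_to_K] at h1
    exact_mod_cast h1
  exact (pow_left_inj₀ (norm_nonneg _) (norm_nonneg _) two_ne_zero).1 h

/-- The abstract lemma on almost orthogonal sums. -/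
lemma balanced_closure (K : ℕ → Submodule ℂ H) (r : H →L[ℂ] H) (c : ℝ)
    (h1 : ∀ k l, k ≠ l → ∀ y ∈ K k, ∀ z ∈ K l, ⟪y, z⟫_ℂ = 0)
    (h2 : ∀ k l, k ≠ l → ∀ y ∈ K k, ∀ z ∈ K l, ⟪y, r z⟫_ℂ = 0)
    (h3 : ∀ k, ∀ y ∈ K k, |(⟪y, r y⟫_ℂ).re| ≤ c * ‖y‖ ^ 2) :
    ∀ x ∈ (⨆ k, K k).topologicalClosure, |(⟪x, r x⟫_ℂ).re| ≤ c * ‖x‖ ^ 2 := by
  have hmain : ∀ x ∈ (⨆ k, K k), |(⟪x, r x⟫_ℂ).re| ≤ c * ‖x‖ ^ 2 := by
    intro x hx
    obtain ⟨f, hf, rfl⟩ := (Submodule.mem_iSup_iff_exists_finsupp K x).1 hx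
    rw [Finsupp.sum]
    have e1 : ⟪∑ k ∈ f.support, f k, r (∑ k ∈ f.support, f k)⟫_ℂ =
        ∑ k ∈ f.support, ⟪f k, r (f k)⟫_ℂ := by
      rw [map_sum, sum_inner]
      refine Finset.sum_congr rfl (fun k hk => ?_)
      rw [inner_sum]
      refine Finset.sum_eq_single_of_mem k hk (fun l _ hl => ?_)
      exact h2 k l (Ne.symm hl) _ (hf k) _ (hf l)
    have e2 : ‖∑ k ∈ f.support, f k‖ ^ 2 = ∑ k ∈ f.support, ‖f k‖ ^ 2 := by
      have e3 : ⟪∑ k ∈ f.support, f k, ∑ k ∈ f.support, f k⟫_ℂ =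
          ∑ k ∈ f.support, ⟪f k, f k⟫_ℂ := by
        rw [sum_inner]
        refine Finset.sum_congr rfl (fun k hk => ?_)
        rw [inner_sum]
        refine Finset.sum_eq_single_of_mem k hk (fun l _ hl => ?_)
        exact h1 k l (Ne.symm hl) _ (hf k) _ (hf l)
      simp only [inner_self_eq_norm_sq_to_K] at e3
      exact_mod_cast e3
    rw [e1, e2, Complex.re_sum, Finset.mul_sum]
    exact (Finset.abs_sum_le_sum_abs _ _).trans (Finset.sum_le_sum (fun k _ => h3 k _ (hf k)))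
  intro x hx
  have hcl : IsClosed {x : H | |(⟪x, r x⟫_ℂ).re| ≤ c * ‖x‖ ^ 2} := by
    refine isClosed_le ?_ ?_
    · exact (Complex.continuous_re.comp (continuous_id.inner r.continuous)).abs
    · exact continuous_const.mul (continuous_norm.pow 2)
  exact closure_minimal (fun x hx => hmain x hx) hcl hx

end Pool.Agent.Lib.MP_0baf06_lc
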