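import Pool.Agent.Lib.MP_0baf06_lc.Menu

/-!
The finite-dimensional block proposition.
-/

open scoped InnerProductSpace BigOperators

set_option linter.unusedSectionVars false

namespace Pool.Agent.Lib.MP_0baf06_lc

variable {S : Type*} [Fintype S] [DecidableEq S]

/-- Extend a finite sequence of signs. -/
def ext {M : ℕ} (σ : Fin M → Bool) : ℕ → Bool := fun i => if h : i < M then σ ⟨i, h⟩ else false

lemma ext_val {M : ℕ} (σ : Fin M → Bool) (i : Fin M) : ext σ i.1 = σ i := by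
  simp [ext]

lemma sum_norm_le {E : Type*} [NormedAddCommGroup E] [InnerProductSpace ℂ E]
    [FiniteDimensional ℂ E] (w : ℕ → E) (M : ℕ)
    (hb : ∀ x : E, ∑ i ∈ Finset.range M, ‖⟪w i, x⟫_ℂ‖ ^ 2 ≤ ‖x‖ ^ 2) :
    ∑ i ∈ Finset.range M, ‖w i‖ ^ 2 ≤ Module.finrank ℂ E := by
  set b := stdOrthonormalBasis ℂ E
  have h1 : ∀ i, ‖w i‖ ^ 2 = ∑ j, ‖⟪w i, b j⟫_ℂ‖ ^ 2 := fun i => (b.sum_sq_norm_inner_left (w i)).symm
  calc ∑ i ∈ Finset.range M, ‖w i‖ ^ 2 = ∑ i ∈ Finset.range M, ∑ j, ‖⟪w i, b j⟫_ℂ‖ ^ 2 :=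
        Finset.sum_congr rfl (fun i _ => h1 i)
    _ = ∑ j, ∑ i ∈ Finset.range M, ‖⟪w i, b j⟫_ℂ‖ ^ 2 := Finset.sum_comm
    _ ≤ ∑ j : Fin (Module.finrank ℂ E), (1 : ℝ) := by
        refine Finset.sum_le_sum (fun j _ => ?_)
        refine (hb (b j)).trans ?_
        rw [b.orthonormal.1 j]; norm_num
    _ = Module.finrank ℂ E := by simp

lemma norm_le_one_of_bessel {E : Type*} [NormedAddCommGroup E] [InnerProductSpace ℂ E]
    (w : ℕ → E) (M : ℕ)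
    (hb : ∀ x : E, ∑ i ∈ Finset.range M, ‖⟪w i, x⟫_ℂ‖ ^ 2 ≤ ‖x‖ ^ 2) {i : ℕ} (hi : i < M) :
    ‖w i‖ ^ 2 ≤ 1 := by
  have h1 := hb (w i)
  have h2 : ‖⟪w i, w i⟫_ℂ‖ ^ 2 ≤ ∑ j ∈ Finset.range M, ‖⟪w j, w i⟫_ℂ‖ ^ 2 :=
    Finset.single_le_sum (f := fun j => ‖⟪w j, w i⟫_ℂ‖ ^ 2) (fun j _ => by positivity)
      (Finset.mem_range.2 hi)
  have h3 : ‖⟪w i, w i⟫_ℂ‖ = ‖w i‖ ^ 2 := by
    rw [inner_self_eq_norm_sq_to_K]; simp
  rw [h3] at h2
  have h4 : (‖w i‖ ^ 2) ^ 2 ≤ ‖w i‖ ^ 2 := h2.trans h1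
  by_contra hcon
  push Not at hcon
  nlinarith

/-- Choice of the signs at the coordinate `s`. -/
lemma exists_signs (D : ℕ) (hD : 1 ≤ D) (s : S) (r : ℕ) (hr : 1 ≤ r) (M : ℕ)
    (w : ℕ → V S (D ^ 2))
    (hb : ∀ x : V S (D ^ 2), ∑ i ∈ Finset.range M, ‖⟪w i, x⟫_ℂ‖ ^ 2 ≤ ‖x‖ ^ 2) :
    ∃ ε : Fin (D ^ 2) → Bool,
      (((Finset.range M).filter (fun i => (D : ℝ) ^ 3 < ‖Sv s ε (w i)‖ ^ 2)).card : ℝ) ≤
        2 * (2 * r).factorial * Module.finrank ℂ (V S (D ^ 2)) / D ^ r := by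
  set κ : (Fin (D ^ 2) → Bool) → ℝ := fun ε =>
    (((Finset.range M).filter (fun i => (D : ℝ) ^ 3 < ‖Sv s ε (w i)‖ ^ 2)).card : ℝ) with hκ
  set N : ℝ := (Module.finrank ℂ (V S (D ^ 2)) : ℝ) with hN
  have hDpos : (0 : ℝ) < D := by exact_mod_cast hD
  have h1 : ∀ ε, κ ε ≤ ∑ i ∈ Finset.range M, ‖Sv s ε (w i)‖ ^ (2 * r) / ((D : ℝ) ^ 3) ^ r := by
    intro ε
    have : κ ε = ∑ i ∈ (Finset.range M).filter (fun i => (D : ℝ) ^ 3 < ‖Sv s ε (w i)‖ ^ 2),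
        (1 : ℝ) := by simp [hκ]
    rw [this]
    refine (Finset.sum_le_sum (fun i hi => ?_)).trans
      (Finset.sum_le_sum_of_subset_of_nonneg (Finset.filter_subset _ _)
        (fun i _ _ => by positivity))
    have hi' := (Finset.mem_filter.1 hi).2
    rw [le_div_iff₀ (by positivity), one_mul, pow_mul]
    gcongr
  have h2 : ∀ i ∈ Finset.range M, ∑ ε : Fin (D ^ 2) → Bool, ‖Sv s ε (w i)‖ ^ (2 * r) ≤
      2 ^ (D ^ 2) * (2 * (2 * r).factorial * ((D : ℝ) ^ 2) ^ r * ‖w i‖ ^ 2) := by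
    intro i hi
    have h := rademacher (fun a => R s a (w i)) r
    rw [sum_norm_R, Fintype.card_fin] at h
    refine h.trans ?_
    have hw := norm_le_one_of_bessel w M hb (Finset.mem_range.1 hi)
    have hw2 : (‖w i‖ ^ 2) ^ r ≤ ‖w i‖ ^ 2 := by
      calc (‖w i‖ ^ 2) ^ r ≤ (‖w i‖ ^ 2) ^ 1 := pow_le_pow_of_le_one (by positivity) hw hr
        _ = ‖w i‖ ^ 2 := pow_one _
    have e : (((D ^ 2 : ℕ) : ℝ) * ‖w i‖ ^ 2) ^ r = ((D : ℝ) ^ 2) ^ r * (‖w i‖ ^ 2) ^ r := by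
      push_cast; rw [mul_pow]
    rw [e]
    calc (2 : ℝ) ^ (D ^ 2) * (2 * ((2 * r).factorial : ℝ) * (((D : ℝ) ^ 2) ^ r * (‖w i‖ ^ 2) ^ r))
        ≤ (2 : ℝ) ^ (D ^ 2) * (2 * ((2 * r).factorial : ℝ) * (((D : ℝ) ^ 2) ^ r * ‖w i‖ ^ 2)) := by
          gcongr
      _ = _ := by ring
  have h3 : ∑ ε, κ ε ≤ 2 ^ (D ^ 2) * (2 * (2 * r).factorial * N / D ^ r) := by
    calc ∑ ε, κ ε ≤ ∑ ε : Fin (D ^ 2) → Bool, ∑ i ∈ Finset.range M,
            ‖Sv s ε (w i)‖ ^ (2 * r) / ((D : ℝ) ^ 3) ^ r := Finset.sum_le_sum (fun ε _ => h1 ε)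
      _ = (∑ i ∈ Finset.range M, ∑ ε : Fin (D ^ 2) → Bool, ‖Sv s ε (w i)‖ ^ (2 * r)) /
            ((D : ℝ) ^ 3) ^ r := by
          rw [Finset.sum_comm, Finset.sum_div]
          refine Finset.sum_congr rfl (fun i _ => ?_)
          rw [Finset.sum_div]
      _ ≤ (∑ i ∈ Finset.range M, 2 ^ (D ^ 2) *
            (2 * (2 * r).factorial * ((D : ℝ) ^ 2) ^ r * ‖w i‖ ^ 2)) / ((D : ℝ) ^ 3) ^ r := by
          gcongr with i hi
          exact h2 i hi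
      _ = (2 ^ (D ^ 2) * (2 * (2 * r).factorial * ((D : ℝ) ^ 2) ^ r) *
            ∑ i ∈ Finset.range M, ‖w i‖ ^ 2) / ((D : ℝ) ^ 3) ^ r := by
          rw [Finset.mul_sum]
          congr 1
          refine Finset.sum_congr rfl (fun i _ => by ring)
      _ ≤ (2 ^ (D ^ 2) * (2 * (2 * r).factorial * ((D : ℝ) ^ 2) ^ r) * N) / ((D : ℝ) ^ 3) ^ r := by
          gcongr
          exact sum_norm_le w M hb
      _ = 2 ^ (D ^ 2) * (2 * (2 * r).factorial * N / D ^ r) := by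
          have : ((D : ℝ) ^ 3) ^ r = ((D : ℝ) ^ 2) ^ r * D ^ r := by
            rw [← mul_pow, ← pow_succ]
          rw [this]
          field_simp
  by_contra hcon
  push Not at hcon
  have h4 : ∑ ε : Fin (D ^ 2) → Bool, (2 * (2 * r).factorial * N / D ^ r : ℝ) < ∑ ε, κ ε :=
    Finset.sum_lt_sum_of_nonempty Finset.univ_nonempty (fun ε _ => hcon ε)
  rw [Finset.sum_const, Finset.card_univ, Fintype.card_fun, Fintype.card_bool, Fintype.card_fin,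
    nsmul_eq_mul] at h4
  push_cast at h4
  linarith

section sub

variable {X : Type*} [NormedAddCommGroup X] [InnerProductSpace ℂ X] [FiniteDimensional ℂ X]

/-- The signed sum over `i < M` of the rank one operators. -/
noncomputable def Tσ {E : Type*} [NormedAddCommGroup E] [InnerProductSpace ℂ E] (u : ℕ → E) (M : ℕ)
    (σ : ℕ → Bool) : E →ₗ[ℂ] E :=
  ∑ i ∈ Finset.range M, (sg (σ i) : ℂ) • ro (u i)

lemma Tσ_symm {E : Type*} [NormedAddCommGroup E] [InnerProductSpace ℂ E] [FiniteDimensional ℂ E]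
    (u : ℕ → E) (M : ℕ)
    (σ : ℕ → Bool) : (Tσ u M σ).IsSymmetric := by
  intro x y
  simp only [Tσ, LinearMap.sum_apply, LinearMap.smul_apply, sum_inner, inner_sum,
    inner_smul_left, inner_smul_right, Complex.conj_ofReal]
  refine Finset.sum_congr rfl (fun i _ => ?_)
  rw [ro_apply, ro_apply, inner_smul_left, inner_smul_right, inner_conj_symm]
  ring

lemma Tσ_quad {E : Type*} [NormedAddCommGroup E] [InnerProductSpace ℂ E] [FiniteDimensional ℂ E]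
    (u : ℕ → E) (M : ℕ)
    (σ : ℕ → Bool) (x : E) : (⟪x, Tσ u M σ x⟫_ℂ).re =
      ∑ i ∈ Finset.range M, sg (σ i) * ‖⟪u i, x⟫_ℂ‖ ^ 2 := by
  simp only [Tσ, LinearMap.sum_apply, LinearMap.smul_apply, inner_sum, inner_smul_right,
    ro_apply]
  rw [Complex.re_sum]
  refine Finset.sum_congr rfl (fun i _ => ?_)
  rw [Complex.re_ofReal_mul]
  congr 1
  rw [← inner_conj_symm x (u i), Complex.mul_conj', ← Complex.ofReal_pow, Complex.ofReal_re]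

lemma moments {E : Type*} [NormedAddCommGroup E] [InnerProductSpace ℂ E] [FiniteDimensional ℂ E]
    (u : ℕ → E) (M : ℕ) {η : ℝ} (hη0 : 0 ≤ η) (hη : ∀ i ∈ Finset.range M, ‖u i‖ ^ 2 ≤ η)
    (hub : ∀ x : E, ∑ i ∈ Finset.range M, ‖⟪u i, x⟫_ℂ‖ ^ 2 ≤ ‖x‖ ^ 2) (r M' : ℕ) (hM' : M ≤ M') :
    ∑ σ : Fin M' → Bool, mom (Tσ u M (ext σ)) r ≤
      2 ^ M' * (4 * r * η) ^ r * Module.finrank ℂ E := by
  classical
  set s' : Finset (Fin M') := Finset.univ.filter (fun i => i.1 < M) with hs'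
  have hZ : ∀ σ : Fin M' → Bool, Tσ u M (ext σ) = Zs (fun i : Fin M' => u i.1) s' σ := by
    intro σ
    simp only [Tσ, Zs]
    symm
    refine Finset.sum_bij (fun i _ => i.1) ?_ ?_ ?_ ?_
    · intro i hi
      exact Finset.mem_range.2 (Finset.mem_filter.1 hi).2
    · intro i _ j _ h
      exact Fin.ext h
    · intro i hi
      have hi' := Finset.mem_range.1 hi
      exact ⟨⟨i, lt_of_lt_of_le hi' hM'⟩, Finset.mem_filter.2 ⟨Finset.mem_univ _, hi'⟩, rfl⟩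
    · intro i _
      rw [ext_val]
  have hk := khintchine (fun i : Fin M' => u i.1) s' (η := η)
    (fun i hi => hη i.1 (Finset.mem_range.2 (Finset.mem_filter.1 hi).2)) hη0
    (fun x => by
      have : ∑ i ∈ s', ‖⟪u i.1, x⟫_ℂ‖ ^ 2 = ∑ i ∈ Finset.range M, ‖⟪u i, x⟫_ℂ‖ ^ 2 := by
        refine Finset.sum_bij (fun i _ => i.1) ?_ ?_ ?_ ?_
        · intro i hi
          exact Finset.mem_range.2 (Finset.mem_filter.1 hi).2
        · intro i _ j _ h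
          exact Fin.ext h
        · intro i hi
          have hi' := Finset.mem_range.1 hi
          exact ⟨⟨i, lt_of_lt_of_le hi' hM'⟩, Finset.mem_filter.2 ⟨Finset.mem_univ _, hi'⟩, rfl⟩
        · intro i _
          rfl
      rw [this]
      exact hub x) r
  simp only [hZ]
  rw [Fintype.card_fin] at hk
  exact hk

/-- The part of the block proposition on a subspace on which the vectors are small. -/
lemma block_aux (E : Submodule ℂ X) (w : ℕ → X) (M r : ℕ) {η : ℝ} (hη0 : 0 ≤ η)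
    (hη : ∀ i ∈ Finset.range M, ‖E.orthogonalProjection (w i)‖ ^ 2 ≤ η)
    (hb : ∀ x : X, ∑ i ∈ Finset.range M, ‖⟪w i, x⟫_ℂ‖ ^ 2 ≤ ‖x‖ ^ 2) :
    ∃ b : (ℕ → Bool) → ℝ, (∀ σ, 0 ≤ b σ) ∧
      (∀ σ σ' : ℕ → Bool, (∀ i < M, σ i = σ' i) → b σ = b σ') ∧
      (∀ M' : ℕ, M ≤ M' → ∑ σ : Fin M' → Bool, b (ext σ) ≤
        2 ^ M' * (4 * r * η) ^ r * Module.finrank ℂ X) ∧
      ∀ σ : ℕ → Bool, ∃ L : Finset X, (L.card : ℝ) ≤ 16 ^ r * b σ ∧
        ∀ x ∈ E, (∀ v ∈ L, ⟪v, x⟫_ℂ = 0) →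
          |∑ i ∈ Finset.range M, sg (σ i) * ‖⟪w i, x⟫_ℂ‖ ^ 2| ≤ 1 / 4 * ‖x‖ ^ 2 := by
  classical
  have hux : ∀ i (x : E), ⟪E.orthogonalProjection (w i), x⟫_ℂ = ⟪w i, (x : X)⟫_ℂ := by
    intro i x
    rw [Submodule.inner_orthogonalProjection_eq_of_mem_right]
  have hub : ∀ x : E, ∑ i ∈ Finset.range M, ‖⟪E.orthogonalProjection (w i), x⟫_ℂ‖ ^ 2 ≤
      ‖x‖ ^ 2 := by
    intro x
    simp only [hux]
    exact hb x
  refine ⟨fun σ => mom (Tσ (fun i => E.orthogonalProjection (w i)) M σ) r,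
    fun σ => mom_nonneg (Tσ_symm _ _ _) r, ?_, ?_, ?_⟩
  · intro σ σ' h
    have : Tσ (fun i => E.orthogonalProjection (w i)) M σ =
        Tσ (fun i => E.orthogonalProjection (w i)) M σ' := by
      simp only [Tσ]
      refine Finset.sum_congr rfl (fun i hi => ?_)
      rw [h i (Finset.mem_range.1 hi)]
    simp only [this]
  · intro M' hM'
    refine (moments (fun i => E.orthogonalProjection (w i)) M hη0 hη hub r M' hM').trans ?_
    have : (Module.finrank ℂ E : ℝ) ≤ Module.finrank ℂ X := by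
      exact_mod_cast Submodule.finrank_le E
    gcongr
  · intro σ
    obtain ⟨L, hL, hLx⟩ := extract (Tσ_symm (fun i => E.orthogonalProjection (w i)) M σ) r
    refine ⟨L.image (fun x : E => (x : X)), ?_, ?_⟩
    · refine le_trans ?_ hL
      exact_mod_cast Finset.card_image_le
    · intro x hxE hxL
      have h := hLx ⟨x, hxE⟩ (fun v hv => hxL v (Finset.mem_image_of_mem _ hv))
      rw [Tσ_quad] at h
      simp only [hux] at h
      exact h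

end sub

/-- The subspace of `W s ε` cut out by the constraints in `B`. -/
def Wc {d : ℕ} (s : S) (ε : Fin d → Bool) (B : Finset (V S d)) : Submodule ℂ (V S d) where
  carrier := {x | x ∈ W s ε ∧ ∀ v ∈ B, ⟪v, x⟫_ℂ = 0}
  add_mem' := by
    rintro x y ⟨hx, hx'⟩ ⟨hy, hy'⟩
    exact ⟨add_mem hx hy, fun v hv => by rw [inner_add_right, hx' v hv, hy' v hv, add_zero]⟩
  zero_mem' := ⟨zero_mem _, fun v _ => inner_zero_right _⟩
  smul_mem' := by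
    rintro c x ⟨hx, hx'⟩
    exact ⟨Submodule.smul_mem _ c hx, fun v hv => by
      rw [inner_smul_right, hx' v hv, mul_zero]⟩

lemma mem_Wc {d : ℕ} (s : S) (ε : Fin d → Bool) (B : Finset (V S d)) (x : V S d) :
    x ∈ Wc s ε B ↔ x ∈ W s ε ∧ ∀ v ∈ B, ⟪v, x⟫_ℂ = 0 := Iff.rfl

/-- The block proposition. -/
theorem block (D : ℕ) (hD : 1 ≤ D) (s : S) (r : ℕ) (hr : 1 ≤ r) (M : ℕ)
    (w : ℕ → V S (D ^ 2))
    (hb : ∀ x : V S (D ^ 2), ∑ i ∈ Finset.range M, ‖⟪w i, x⟫_ℂ‖ ^ 2 ≤ ‖x‖ ^ 2) :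
    ∃ (ε : Fin (D ^ 2) → Bool) (B : Finset (V S (D ^ 2))) (b : (ℕ → Bool) → ℝ),
      (B.card : ℝ) ≤ 2 * (2 * r).factorial * Module.finrank ℂ (V S (D ^ 2)) / D ^ r ∧
      (∀ σ, 0 ≤ b σ) ∧
      (∀ σ σ' : ℕ → Bool, (∀ i < M, σ i = σ' i) → b σ = b σ') ∧
      (∀ M' : ℕ, M ≤ M' → ∑ σ : Fin M' → Bool, b (ext σ) ≤
        2 ^ M' * (4 * r * (1 / D)) ^ r * Module.finrank ℂ (V S (D ^ 2))) ∧
      ∀ σ : ℕ → Bool, ∃ L : Finset (V S (D ^ 2)), (L.card : ℝ) ≤ 16 ^ r * b σ ∧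
        ∀ x ∈ W s ε, (∀ v ∈ B, ⟪v, x⟫_ℂ = 0) → (∀ v ∈ L, ⟪v, x⟫_ℂ = 0) →
          |∑ i ∈ Finset.range M, sg (σ i) * ‖⟪w i, x⟫_ℂ‖ ^ 2| ≤ 1 / 4 * ‖x‖ ^ 2 := by
  classical
  obtain ⟨ε, hε⟩ := exists_signs D hD s r hr M w hb
  have hDpos : (0 : ℝ) < D := by exact_mod_cast hD
  set bad := (Finset.range M).filter (fun i => (D : ℝ) ^ 3 < ‖Sv s ε (w i)‖ ^ 2) with hbad
  set B : Finset (V S (D ^ 2)) := bad.image w with hB
  have hun : ∀ i ∈ Finset.range M, ‖(Wc s ε B).orthogonalProjection (w i)‖ ^ 2 ≤ 1 / (D : ℝ) := by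
    intro i hi
    set p : V S (D ^ 2) := ((Wc s ε B).orthogonalProjection (w i) : V S (D ^ 2)) with hp
    have hpE : p ∈ Wc s ε B := ((Wc s ε B).orthogonalProjection (w i)).2
    have hpn : ‖(Wc s ε B).orthogonalProjection (w i)‖ = ‖p‖ := rfl
    have hpp : ⟪w i, p⟫_ℂ = ((‖p‖ ^ 2 : ℝ) : ℂ) := by
      have h0 : ⟪p, p⟫_ℂ = ⟪w i, p⟫_ℂ := by
        rw [hp]
        have := Submodule.inner_orthogonalProjection_eq_of_mem_right
          (K := Wc s ε B) ((Wc s ε B).orthogonalProjection (w i)) (w i)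
        rw [← this]
        rfl
      rw [← h0, inner_self_eq_norm_sq_to_K]
      push_cast
      rfl
    rw [hpn]
    by_cases hib : i ∈ bad
    · have h0 := ((mem_Wc s ε B p).1 hpE).2 (w i) (Finset.mem_image_of_mem w hib)
      rw [hpp] at h0
      have h1 : ‖p‖ ^ 2 = 0 := by exact_mod_cast h0
      rw [h1]
      positivity
    · have h1 : ‖Sv s ε (w i)‖ ^ 2 ≤ (D : ℝ) ^ 3 := by
        by_contra hcon
        exact hib (Finset.mem_filter.2 ⟨hi, not_le.1 hcon⟩)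
      have h2 := inner_W_le s ε ((mem_Wc s ε B p).1 hpE).1 (w i)
      have h3 : ‖⟪p, w i⟫_ℂ‖ = ‖p‖ ^ 2 := by
        rw [norm_inner_symm, hpp, Complex.norm_real, Real.norm_eq_abs, abs_of_nonneg (by positivity)]
      rw [h3] at h2
      have h4 : ((D ^ 2 : ℕ) : ℝ) * ‖p‖ ≤ ‖Sv s ε (w i)‖ := by
        rcases (norm_nonneg p).eq_or_lt with h0 | hpos
        · rw [← h0, mul_zero]; exact norm_nonneg _
        · have : ‖p‖ * (((D ^ 2 : ℕ) : ℝ) * ‖p‖) ≤ ‖p‖ * ‖Sv s ε (w i)‖ := by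
            nlinarith
          exact le_of_mul_le_mul_left this hpos
      have h5 : (((D ^ 2 : ℕ) : ℝ) * ‖p‖) ^ 2 ≤ (D : ℝ) ^ 3 :=
        (pow_le_pow_left₀ (by positivity) h4 2).trans h1
      push_cast at h5
      rw [le_div_iff₀ hDpos]
      have h6 : (D : ℝ) ^ 3 * (‖p‖ ^ 2 * D) ≤ (D : ℝ) ^ 3 * 1 := by nlinarith
      exact le_of_mul_le_mul_left h6 (by positivity)
  obtain ⟨b, hb0, hb1, hb2, hb3⟩ := block_aux (Wc s ε B) w M r (η := 1 / (D : ℝ)) (by positivity)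
    hun hb
  refine ⟨ε, B, b, ?_, hb0, hb1, hb2, ?_⟩
  · refine le_trans ?_ hε
    exact_mod_cast Finset.card_image_le
  · intro σ
    obtain ⟨L, hL, hLx⟩ := hb3 σ
    exact ⟨L, hL, fun x hxW hxB hxL => hLx x ⟨hxW, hxB⟩ hxL⟩

end Pool.Agent.Lib.MP_0baf06_lc
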