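import Pool.Agent.Lib.MP_0baf06_lc.Khin

/-!
Moments of vector valued Rademacher sums.
-/

open scoped InnerProductSpace BigOperators

set_option linter.unusedSectionVars false

namespace Pool.Agent.Lib.MP_0baf06_lc

lemma pow_diff_mono {s t δ : ℝ} (hs : 0 ≤ s) (hst : s ≤ t) (hδ : 0 ≤ δ) (n : ℕ) :
    0 ≤ (s + δ) ^ n - s ^ n ∧ (s + δ) ^ n - s ^ n ≤ (t + δ) ^ n - t ^ n := by
  induction n with
  | zero => simp
  | succ n ih =>
      have e : ∀ x : ℝ, (x + δ) ^ (n + 1) - x ^ (n + 1) =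
          (x + δ) * ((x + δ) ^ n - x ^ n) + δ * x ^ n := by intro x; ring
      rw [e, e]
      obtain ⟨h0, h1⟩ := ih
      have hsn : 0 ≤ s ^ n := by positivity
      have hstn : s ^ n ≤ t ^ n := by gcongr
      constructor
      · positivity
      · have a1 : (s + δ) * ((s + δ) ^ n - s ^ n) ≤ (t + δ) * ((t + δ) ^ n - t ^ n) := by
          apply mul_le_mul (by linarith) h1 h0 (by linarith)
        have a2 : δ * s ^ n ≤ δ * t ^ n := by gcongr
        linarith

lemma pow_add_pow_le {P Q R T : ℝ} (hT : 0 ≤ T) (hs : P + Q = R + T)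
    (hP : P ≤ R) (hQ : Q ≤ R) (n : ℕ) : P ^ n + Q ^ n ≤ R ^ n + T ^ n := by
  have h := (pow_diff_mono (s := T) (t := P) (δ := R - P) hT (by linarith) (by linarith) n).2
  have e1 : T + (R - P) = Q := by linarith
  have e2 : P + (R - P) = R := by ring
  rw [e1, e2] at h
  linarith

variable {E : Type*} [NormedAddCommGroup E] [InnerProductSpace ℂ E]

lemma cosh_add_cosh_le (x w : E) :
    Real.cosh ‖x + w‖ + Real.cosh ‖x - w‖ ≤ 2 * (Real.cosh ‖x‖ * Real.cosh ‖w‖) := by
  have h1 : Real.cosh (‖x‖ + ‖w‖) + Real.cosh (‖x‖ - ‖w‖) = 2 * (Real.cosh ‖x‖ * Real.cosh ‖w‖) := by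
    rw [Real.cosh_add, Real.cosh_sub]; ring
  rw [← h1]
  have s1 := (Real.hasSum_cosh ‖x + w‖).add (Real.hasSum_cosh ‖x - w‖)
  have s2 := (Real.hasSum_cosh (‖x‖ + ‖w‖)).add (Real.hasSum_cosh (‖x‖ - ‖w‖))
  refine hasSum_le (fun n => ?_) s1 s2
  rw [← add_div, ← add_div]
  refine div_le_div_of_nonneg_right ?_ (by positivity)
  rw [pow_mul, pow_mul, pow_mul, pow_mul]
  refine pow_add_pow_le (sq_nonneg _) ?_ ?_ ?_ n
  · have := parallelogram_law_with_norm ℂ x w
    nlinarith [this]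
  · have := norm_add_le x w
    gcongr
  · have := norm_sub_le x w
    gcongr

variable {ι : Type*} [Fintype ι] [DecidableEq ι]

lemma sum_cosh_le (v : ι → E) (s : Finset ι) (x : E) :
    ∑ σ : ι → Bool, Real.cosh ‖x + ∑ i ∈ s, (sg (σ i) : ℂ) • v i‖ ≤
      2 ^ Fintype.card ι * (Real.cosh ‖x‖ * ∏ i ∈ s, Real.cosh ‖v i‖) := by
  induction s using Finset.induction with
  | empty =>
      simp only [Finset.sum_empty, add_zero, Finset.prod_empty, mul_one, Finset.sum_const,
        Finset.card_univ, nsmul_eq_mul, Fintype.card_fun, Fintype.card_bool]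
      push_cast
      exact le_rfl
  | insert j s hj ih =>
      set y : (ι → Bool) → E := fun σ => x + ∑ i ∈ s, (sg (σ i) : ℂ) • v i with hy
      have hyf : ∀ σ, y (flip j σ) = y σ := by
        intro σ
        simp only [hy]
        congr 1
        refine Finset.sum_congr rfl (fun i hi => ?_)
        have hne : i ≠ j := by rintro rfl; exact hj hi
        rw [flip_ne hne]
      have e : ∀ σ : ι → Bool, x + ∑ i ∈ insert j s, (sg (σ i) : ℂ) • v i =
          y σ + (sg (σ j) : ℂ) • v j := by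
        intro σ
        rw [Finset.sum_insert hj]
        simp only [hy]
        abel
      set F : (ι → Bool) → ℝ := fun σ => Real.cosh ‖y σ + (sg (σ j) : ℂ) • v j‖ with hF
      have h2 : ∑ σ, F σ = (1 / 2) * ∑ σ, (F σ + F (flip j σ)) := by
        rw [Finset.sum_add_distrib, sum_flip j F]; ring
      have h3 : ∀ σ, F σ + F (flip j σ) ≤ 2 * (Real.cosh ‖y σ‖ * Real.cosh ‖v j‖) := by
        intro σ
        simp only [hF, hyf, flip_same, sg_not]
        rcases hb : σ j with _ | _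
        · simp only [sg_false]
          have := cosh_add_cosh_le (y σ) (v j)
          push_cast
          simp only [neg_smul, one_smul, neg_neg, ← sub_eq_add_neg]
          linarith
        · simp only [sg_true]
          have := cosh_add_cosh_le (y σ) (v j)
          push_cast
          simp only [neg_smul, one_smul, ← sub_eq_add_neg]
          linarith
      calc ∑ σ : ι → Bool, Real.cosh ‖x + ∑ i ∈ insert j s, (sg (σ i) : ℂ) • v i‖
          = ∑ σ, F σ := Finset.sum_congr rfl (fun σ _ => by rw [e])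
        _ = (1 / 2) * ∑ σ, (F σ + F (flip j σ)) := h2
        _ ≤ (1 / 2) * ∑ σ, 2 * (Real.cosh ‖y σ‖ * Real.cosh ‖v j‖) := by
            gcongr with σ _
            exact h3 σ
        _ = (∑ σ, Real.cosh ‖y σ‖) * Real.cosh ‖v j‖ := by
            rw [Finset.sum_mul, Finset.mul_sum]
            refine Finset.sum_congr rfl (fun σ _ => by ring)
        _ ≤ (2 ^ Fintype.card ι * (Real.cosh ‖x‖ * ∏ i ∈ s, Real.cosh ‖v i‖)) *
              Real.cosh ‖v j‖ := by
            refine mul_le_mul_of_nonneg_right ih (Real.cosh_pos _).le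
        _ = _ := by rw [Finset.prod_insert hj]; ring

lemma sum_cosh_le' (v : ι → E) :
    ∑ σ : ι → Bool, Real.cosh ‖∑ i, (sg (σ i) : ℂ) • v i‖ ≤
      2 ^ Fintype.card ι * Real.exp ((∑ i, ‖v i‖ ^ 2) / 2) := by
  have h := sum_cosh_le v Finset.univ (0 : E)
  simp only [zero_add, norm_zero, Real.cosh_zero, one_mul] at h
  refine h.trans ?_
  refine mul_le_mul_of_nonneg_left ?_ (by positivity)
  rw [Finset.sum_div, Real.exp_sum]
  exact Finset.prod_le_prod (fun i _ => (Real.cosh_pos _).le)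
    (fun i _ => Real.cosh_le_exp_half_sq _)

lemma pow_le_cosh (t : ℝ) (m : ℕ) : t ^ (2 * m) ≤ (2 * m).factorial * Real.cosh t := by
  have h := (Real.hasSum_cosh t)
  have h1 : t ^ (2 * m) / (2 * m).factorial ≤ Real.cosh t := by
    refine le_hasSum h m (fun n _ => ?_)
    have : 0 ≤ t ^ (2 * n) := (even_two_mul n).pow_nonneg _
    positivity
  rw [div_le_iff₀ (by positivity)] at h1
  linarith

/-- Moments of vector valued Rademacher sums. -/
theorem rademacher (v : ι → E) (m : ℕ) :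
    ∑ σ : ι → Bool, ‖∑ i, (sg (σ i) : ℂ) • v i‖ ^ (2 * m) ≤
      2 ^ Fintype.card ι * (2 * (2 * m).factorial * (∑ i, ‖v i‖ ^ 2) ^ m) := by
  set T : ℝ := ∑ i, ‖v i‖ ^ 2 with hT
  have hT0 : 0 ≤ T := Finset.sum_nonneg (fun i _ => by positivity)
  rcases hT0.eq_or_lt with h0 | hpos
  · have hv : ∀ i, v i = 0 := by
      intro i
      have := (Finset.sum_eq_zero_iff_of_nonneg (fun i _ => by positivity)).1 h0.symm i
        (Finset.mem_univ i)
      simpa using this
    simp only [hv, smul_zero, Finset.sum_const_zero, norm_zero, Finset.sum_const, Finset.card_univ,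
      nsmul_eq_mul, Fintype.card_fun, Fintype.card_bool]
    rw [← h0]
    push_cast
    refine mul_le_mul_of_nonneg_left ?_ (by positivity)
    rcases Nat.eq_zero_or_pos m with hm | hm
    · subst hm; norm_num
    · rw [zero_pow (by omega), zero_pow (by omega)]; simp
  · set τ : ℝ := Real.sqrt T with hτ
    have hτ0 : 0 < τ := Real.sqrt_pos.2 hpos
    have hτ2 : τ ^ 2 = T := Real.sq_sqrt hT0
    have h := sum_cosh_le' (fun i => ((τ⁻¹ : ℝ) : ℂ) • v i)
    have e1 : ∀ σ : ι → Bool, ‖∑ i, (sg (σ i) : ℂ) • ((τ⁻¹ : ℝ) : ℂ) • v i‖ =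
        ‖∑ i, (sg (σ i) : ℂ) • v i‖ / τ := by
      intro σ
      have : ∑ i, (sg (σ i) : ℂ) • ((τ⁻¹ : ℝ) : ℂ) • v i =
          ((τ⁻¹ : ℝ) : ℂ) • ∑ i, (sg (σ i) : ℂ) • v i := by
        rw [Finset.smul_sum]
        refine Finset.sum_congr rfl (fun i _ => smul_comm _ _ _)
      rw [this, norm_smul, Complex.norm_real, Real.norm_eq_abs, abs_of_pos (inv_pos.2 hτ0)]
      field_simp
    have e2 : ∑ i, ‖((τ⁻¹ : ℝ) : ℂ) • v i‖ ^ 2 = 1 := by
      have : ∀ i, ‖((τ⁻¹ : ℝ) : ℂ) • v i‖ ^ 2 = (τ⁻¹) ^ 2 * ‖v i‖ ^ 2 := by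
        intro i
        rw [norm_smul, Complex.norm_real, Real.norm_eq_abs, abs_of_pos (inv_pos.2 hτ0), mul_pow]
      rw [Finset.sum_congr rfl (fun i _ => this i), ← Finset.mul_sum, ← hT, ← hτ2]
      field_simp
    simp only [e1, e2] at h
    have hexp : Real.exp (1 / 2) ≤ 2 := by
      have : Real.exp (1 / 2) ≤ Real.exp (Real.log 2) := by
        apply Real.exp_le_exp.2
        have := Real.log_two_gt_d9
        linarith
      rwa [Real.exp_log (by norm_num)] at this
    have h3 : ∀ σ : ι → Bool, ‖∑ i, (sg (σ i) : ℂ) • v i‖ ^ (2 * m) ≤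
        τ ^ (2 * m) * ((2 * m).factorial * Real.cosh (‖∑ i, (sg (σ i) : ℂ) • v i‖ / τ)) := by
      intro σ
      have := pow_le_cosh (‖∑ i, (sg (σ i) : ℂ) • v i‖ / τ) m
      rw [div_pow, div_le_iff₀ (by positivity)] at this
      linarith
    calc ∑ σ : ι → Bool, ‖∑ i, (sg (σ i) : ℂ) • v i‖ ^ (2 * m)
        ≤ ∑ σ : ι → Bool, τ ^ (2 * m) *
            ((2 * m).factorial * Real.cosh (‖∑ i, (sg (σ i) : ℂ) • v i‖ / τ)) :=
          Finset.sum_le_sum (fun σ _ => h3 σ)
      _ = τ ^ (2 * m) * ((2 * m).factorial *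
            ∑ σ : ι → Bool, Real.cosh (‖∑ i, (sg (σ i) : ℂ) • v i‖ / τ)) := by
          rw [← Finset.mul_sum, ← Finset.mul_sum]
      _ ≤ τ ^ (2 * m) * ((2 * m).factorial * (2 ^ Fintype.card ι * 2)) := by
          gcongr
          exact h.trans (by gcongr)
      _ = _ := by rw [pow_mul, hτ2]; ring

end Pool.Agent.Lib.MP_0baf06_lc
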