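import Pool.Agent.Lib.MP_0baf06_lc.Proj

/-!
The data attached to one orthonormal basis.
-/

open scoped InnerProductSpace BigOperators Topology

set_option linter.unusedSectionVars false

namespace Pool.Agent.Lib.MP_0baf06_lc

variable {H : Type*} [NormedAddCommGroup H] [InnerProductSpace ℂ H] [CompleteSpace H]

/-- The bound on the number of constraints in the `k`-th block. -/
noncomputable def bound (k : ℕ) : ℝ :=
  2 * (2 * (2 * k + 1)).factorial * (((DD k : ℝ) ^ 2) ^ (2 ^ k)) / (DD k : ℝ) ^ (2 * k + 1) +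
    16 ^ (2 * k + 1) * (2 ^ (k + 2) * ((4 * ((2 * k + 1 : ℕ) : ℝ) * (1 / (DD k : ℝ))) ^ (2 * k + 1) *
      ((DD k : ℝ) ^ 2) ^ (2 ^ k))) + FF k

lemma bound_lt (k n : ℕ) (hn : n ≤ k) :
    (n : ℝ) * bound k < ((DD k : ℝ) ^ 2) ^ (2 ^ k - n) := param k n hn

lemma finrank_VV (k : ℕ) :
    (Module.finrank ℂ (VV k) : ℝ) = ((DD k : ℝ) ^ 2) ^ (2 ^ k) := by
  rw [finrank_euclideanSpace, Fintype.card_fun, Fintype.card_fin, Fintype.card_fun,
    Fintype.card_bool, Fintype.card_fin]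
  push_cast
  rfl

lemma bessel_P (b : Idx → H) (hb : Orthonormal ℂ b) (e : HilbertBasis ℕ ℂ H) (k M : ℕ) (f : VV k) :
    ∑ i ∈ Finset.range M, ‖⟪P b k (e i), f⟫_ℂ‖ ^ 2 ≤ ‖f‖ ^ 2 := by
  simp only [inner_P]
  rw [← norm_J b hb k f]
  exact e.orthonormal.sum_inner_products_le _

lemma exists_tail (b : Idx → H) (hb : Orthonormal ℂ b) (e : HilbertBasis ℕ ℂ H) (k : ℕ) :
    ∃ M : ℕ, Summable (fun i => ‖P b k (e (i + M))‖ ^ 2) ∧
      ∑' i, ‖P b k (e (i + M))‖ ^ 2 ≤ 1 / 4 := by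
  have hs : Summable (fun i => ‖P b k (e i)‖ ^ 2) := by
    refine summable_of_sum_range_le (c := Module.finrank ℂ (VV k)) (fun i => by positivity) ?_
    intro M
    exact sum_norm_le (fun i => P b k (e i)) M (fun f => bessel_P b hb e k M f)
  have ht := tendsto_sum_nat_add (fun i => ‖P b k (e i)‖ ^ 2)
  have h1 : ∀ᶠ M in Filter.atTop, ∑' i, ‖P b k (e (i + M))‖ ^ 2 < 1 / 4 :=
    ht.eventually (gt_mem_nhds (by norm_num))
  obtain ⟨M, hM⟩ := h1.exists
  exact ⟨M, (summable_nat_add_iff M).2 hs, hM.le⟩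

/-- The symmetry. -/
noncomputable def refl (s : Set H) : H →L[ℂ] H := (2 : ℂ) • spanProj s - 1

lemma refl_apply (s : Set H) (y : H) : refl s y = (2 : ℂ) • spanProj s y - y := rfl

lemma refl_symm (s : Set H) (x y : H) : ⟪refl s x, y⟫_ℂ = ⟪x, refl s y⟫_ℂ := by
  rw [refl_apply, refl_apply, inner_sub_left, inner_sub_right, inner_smul_left, inner_smul_right,
    spanProj_symm, map_ofNat]

lemma refl_quad (s : Set H) (y : H) :
    (⟪y, refl s y⟫_ℂ).re = 2 * ‖spanProj s y‖ ^ 2 - ‖y‖ ^ 2 := by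
  have h1 : ⟪y, spanProj s y⟫_ℂ = ((‖spanProj s y‖ ^ 2 : ℝ) : ℂ) := by
    rw [← spanProj_idem s y, ← spanProj_symm, spanProj_idem, inner_self_eq_norm_sq_to_K]
    push_cast; rfl
  have h2 : ⟪y, y⟫_ℂ = ((‖y‖ ^ 2 : ℝ) : ℂ) := by
    rw [inner_self_eq_norm_sq_to_K]; push_cast; rfl
  rw [refl_apply, inner_sub_right, inner_smul_right, h1, h2, Complex.sub_re, Complex.ofReal_re]
  congr 1
  rw [show (2 : ℂ) = ((2 : ℝ) : ℂ) by norm_num, ← Complex.ofReal_mul, Complex.ofReal_re]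

/-- Splitting into the main part and the tail. -/
lemma main_tail (b : Idx → H) (hb : Orthonormal ℂ b) (e : HilbertBasis ℕ ℂ H) (k M : ℕ)
    (hs : Summable (fun i => ‖P b k (e (i + M))‖ ^ 2))
    (ht : ∑' i, ‖P b k (e (i + M))‖ ^ 2 ≤ 1 / 4) (σ : ℕ → Bool) (f : VV k)
    (hf : |∑ i ∈ Finset.range M, sg (σ i) * ‖⟪P b k (e i), f⟫_ℂ‖ ^ 2| ≤ 1 / 4 * ‖f‖ ^ 2) :
    |2 * ‖spanProj (e '' {i | σ i = true}) (J b k f)‖ ^ 2 - ‖J b k f‖ ^ 2| ≤
      1 / 2 * ‖J b k f‖ ^ 2 := by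
  have h := hasSum_proj e σ (J b k f)
  have h1 := h.summable.sum_add_tsum_nat_add M
  rw [h.tsum_eq] at h1
  rw [← h1, norm_J b hb]
  simp only [← inner_P]
  have h2 : |∑' i, sg (σ (i + M)) * ‖⟪P b k (e (i + M)), f⟫_ℂ‖ ^ 2| ≤ 1 / 4 * ‖f‖ ^ 2 := by
    have h3 : ∀ i, ‖sg (σ (i + M)) * ‖⟪P b k (e (i + M)), f⟫_ℂ‖ ^ 2‖ ≤
        ‖P b k (e (i + M))‖ ^ 2 * ‖f‖ ^ 2 := by
      intro i
      rw [norm_mul, Real.norm_eq_abs, abs_sg, one_mul, norm_pow, norm_norm, ← mul_pow]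
      exact pow_le_pow_left₀ (norm_nonneg _) (norm_inner_le_norm _ _) 2
    have h4 := tsum_of_norm_bounded (hs.mul_right (‖f‖ ^ 2)).hasSum h3
    rw [Real.norm_eq_abs, tsum_mul_right] at h4
    refine h4.trans ?_
    gcongr
  calc _ ≤ |∑ i ∈ Finset.range M, sg (σ i) * ‖⟪P b k (e i), f⟫_ℂ‖ ^ 2| +
      |∑' i, sg (σ (i + M)) * ‖⟪P b k (e (i + M)), f⟫_ℂ‖ ^ 2| := abs_add_le _ _
    _ ≤ 1 / 4 * ‖f‖ ^ 2 + 1 / 4 * ‖f‖ ^ 2 := add_le_add hf h2
    _ = _ := by ring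

theorem data (b : Idx → H) (hb : Orthonormal ℂ b) (e : HilbertBasis ℕ ℂ H) (x : ℕ → Bool) :
    ∃ (σ : ℕ → Bool) (ε : ∀ k, Fin ((DD k) ^ 2) → Bool) (L : ∀ k, Finset (VV k)),
      (∀ k, ((L k).card : ℝ) ≤ bound k) ∧
      ∀ y ∈ (⨆ k, (Wc (fun i : Fin k => x i) (ε k) (L k)).map (J b k)).topologicalClosure,
        |2 * ‖spanProj (e '' {i | σ i = true}) y‖ ^ 2 - ‖y‖ ^ 2| ≤ 1 / 2 * ‖y‖ ^ 2 := by
  classical
  choose M hMs hMt using exists_tail b hb e
  have hblock := fun k => block (DD k) (by have := DD_two k; omega) (fun i : Fin k => x i)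
    (2 * k + 1) (by omega) (M k) (fun i => P b k (e i)) (fun f => bessel_P b hb e k (M k) f)
  choose ε B bk hB h0 hdep havg hL using hblock
  have hD : ∀ k, (0 : ℝ) < DD k := fun k => by
    have := DD_two k
    exact_mod_cast (by omega : 0 < DD k)
  obtain ⟨σ, hσ⟩ := good_signs M bk
    (fun k => (4 * ((2 * k + 1 : ℕ) : ℝ) * (1 / (DD k : ℝ))) ^ (2 * k + 1) *
      ((DD k : ℝ) ^ 2) ^ (2 ^ k)) (fun k => by have := hD k; positivity) h0 hdep (by
      intro k M' hM'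
      refine (havg k M' hM').trans (le_of_eq ?_)
      rw [finrank_VV, mul_assoc])
  choose L0 hL0 hL0' using fun k => hL k σ
  set r : H →L[ℂ] H := refl (e '' {i | σ i = true}) with hr
  set Cr : ∀ k, Finset (VV k) := fun k =>
    ((Finset.range k).sigma (fun l => (Finset.univ : Finset (SS l → Fin ((DD l) ^ 2))))).image
      (fun p => P b k (r (b p))) with hCr
  have hCrcard : ∀ k, ((Cr k).card : ℝ) ≤ FF k := by
    intro k
    have h1 : (Cr k).card ≤ FF k := by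
      refine Finset.card_image_le.trans (le_of_eq ?_)
      rw [Finset.card_sigma, FF_eq]
      refine Finset.sum_congr rfl (fun l _ => ?_)
      rw [Finset.card_univ, Fintype.card_fun, Fintype.card_fin, Fintype.card_fun,
        Fintype.card_bool, Fintype.card_fin]
    exact_mod_cast h1
  refine ⟨σ, ε, fun k => B k ∪ L0 k ∪ Cr k, ?_, ?_⟩
  · intro k
    have h1 : (((B k ∪ L0 k ∪ Cr k).card : ℕ) : ℝ) ≤ (B k).card + (L0 k).card + (Cr k).card := by
      have h2 := Finset.card_union_le (B k ∪ L0 k) (Cr k)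
      have h3 := Finset.card_union_le (B k) (L0 k)
      have h4 : (B k ∪ L0 k ∪ Cr k).card ≤ (B k).card + (L0 k).card + (Cr k).card := by omega
      exact_mod_cast h4
    refine h1.trans ?_
    unfold bound
    refine add_le_add (add_le_add ?_ ?_) (hCrcard k)
    · refine (hB k).trans (le_of_eq ?_)
      rw [finrank_VV]
    · refine (hL0 k).trans ?_
      gcongr
      exact hσ k
  · have key : ∀ k l, l < k → ∀ y ∈ (Wc (fun i : Fin k => x i) (ε k) (B k ∪ L0 k ∪ Cr k)).map (J b k),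
        ∀ z ∈ (Wc (fun i : Fin l => x i) (ε l) (B l ∪ L0 l ∪ Cr l)).map (J b l),
        ⟪y, r z⟫_ℂ = 0 := by
      rintro k l hlk _ ⟨f, hf, rfl⟩ _ ⟨g, hg, rfl⟩
      rw [J_apply b l g, map_sum, inner_sum]
      refine Finset.sum_eq_zero (fun ω _ => ?_)
      rw [map_smul, inner_smul_right]
      have h1 : ⟪P b k (r (b ⟨l, ω⟩)), f⟫_ℂ = 0 := by
        refine ((mem_Wc _ _ _ _).1 hf).2 _ (Finset.mem_union_right _ ?_)
        exact Finset.mem_image.2 ⟨⟨l, ω⟩, Finset.mem_sigma.2 ⟨Finset.mem_range.2 hlk,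
          Finset.mem_univ _⟩, rfl⟩
      rw [← inner_P', ← inner_conj_symm, h1, map_zero, mul_zero]
    have hbal := balanced_closure
      (fun k => (Wc (fun i : Fin k => x i) (ε k) (B k ∪ L0 k ∪ Cr k)).map (J b k)) r (1 / 2)
      ?_ ?_ ?_
    · intro y hy
      have h1 := hbal y hy
      rwa [hr, refl_quad] at h1
    · rintro k l hkl _ ⟨f, hf, rfl⟩ _ ⟨g, hg, rfl⟩
      exact inner_J_J_ne b hb hkl f g
    · intro k l hkl y hy z hz
      rcases lt_or_gt_of_ne hkl with h | h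
      · rw [hr, ← refl_symm, ← inner_conj_symm, ← hr, key l k h z hz y hy, map_zero]
      · exact key k l h y hy z hz
    · rintro k _ ⟨f, hf, rfl⟩
      rw [hr, refl_quad]
      have hf' := (mem_Wc _ _ _ _).1 hf
      refine main_tail b hb e k (M k) (hMs k) (hMt k) σ f ?_
      refine hL0' k f hf'.1 (fun v hv => hf'.2 v ?_) (fun v hv => hf'.2 v ?_)
      · exact Finset.mem_union_left _ (Finset.mem_union_left _ hv)
      · exact Finset.mem_union_left _ (Finset.mem_union_right _ hv)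

end Pool.Agent.Lib.MP_0baf06_lc
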