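import Pool.Agent.Lib.MP_0baf06_lc.Main

/-!
The conclusion for masas.
-/

open scoped InnerProductSpace BigOperators Topology

set_option linter.unusedSectionVars false

namespace Pool.Agent.Lib.MP_0baf06_lc

variable {H : Type*} [NormedAddCommGroup H] [InnerProductSpace ℂ H] [CompleteSpace H]

variable {φ : (H →L[ℂ] H) →ₗ[ℂ] ℂ}

lemma IsState.mul_right (hφ : IsState φ) {q : H →L[ℂ] H} (hqs : star q = q) (hqi : q * q = q)
    (h1 : φ q = 1) (a : H →L[ℂ] H) : φ (a * q) = φ a := by
  have hs : star (1 - q) = 1 - q := by rw [star_sub, star_one, hqs]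
  have hi : (1 - q) * (1 - q) = 1 - q := by
    rw [mul_sub, sub_mul, sub_mul, hqi]; simp
  have h0 : φ (1 - q) = 0 := by rw [map_sub, hφ.1, h1, sub_self]
  have h := hφ.cs (star a) (1 - q)
  rw [hs, hi, h0, Complex.zero_re, mul_zero, star_star] at h
  have h2 : ‖φ (a * (1 - q))‖ = 0 := by
    have := sq_nonneg ‖φ (a * (1 - q))‖
    exact pow_eq_zero_iff two_ne_zero |>.1 (le_antisymm h this)
  have h3 := norm_eq_zero.1 h2
  rw [mul_sub, map_sub, mul_one, sub_eq_zero] at h3
  exact h3.symm

lemma zero_or_one {A : StarSubalgebra ℂ (H →L[ℂ] H)} (hm : MultiplicativeOn φ A) {p : H →L[ℂ] H}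
    (hp : p ∈ A) (hpi : p * p = p) : φ p = 0 ∨ φ p = 1 := by
  have h := hm p hp p hp
  rw [hpi] at h
  have h2 : φ p * (φ p - 1) = 0 := by linear_combination -h
  rcases mul_eq_zero.1 h2 with h3 | h3
  · exact Or.inl h3
  · exact Or.inr (sub_eq_zero.1 h3)

theorem masa_part [TopologicalSpace.SeparableSpace H] (hH : ¬ FiniteDimensional ℂ H)
    (hφ : IsState φ)
    (hbal : ∀ e : ℕ → H, Orthonormal ℂ e →
      (Submodule.span ℂ (Set.range e)).topologicalClosure = ⊤ →
        ∃ S : Set ℕ, 1 / 4 ≤ (φ (spanProj (e '' S))).re ∧ (φ (spanProj (e '' S))).re ≤ 3 / 4)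
    (A : StarSubalgebra ℂ (H →L[ℂ] H)) (hA : IsMasa A) (hm : MultiplicativeOn φ A) :
    φ (spanProj (eigenvectors A)) = 0 := by
  classical
  obtain ⟨O, hOE, hOo, hOs⟩ := exists_maximal_orthonormal_eigen A
  obtain ⟨w, B, hOw, hBw⟩ := hOo.exists_hilbertBasis_extension
  have hwo : Orthonormal ℂ (Subtype.val : w → H) := by rw [← hBw]; exact B.orthonormal
  haveI : Infinite w := infinite_index hH B
  haveI : Countable w := (countable_orthonormal hwo).to_subtype
  obtain ⟨g⟩ := nonempty_equiv_of_countable (α := ℕ) (β := w)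
  set e : ℕ → H := fun i => (g i : H) with he
  have heo : Orthonormal ℂ e := hwo.comp g g.injective
  have hrange : Set.range e = w := by
    ext y
    constructor
    · rintro ⟨i, rfl⟩; exact (g i).2
    · intro hy
      exact ⟨g.symm ⟨y, hy⟩, by simp [he]⟩
  have hspan : (Submodule.span ℂ (Set.range e)).topologicalClosure = ⊤ := by
    have h1 := B.dense_span
    rw [hBw, Subtype.range_coe] at h1
    rw [hrange]; exact h1
  obtain ⟨S, hS1, hS2⟩ := hbal e heo hspan
  set I : Set ℕ := {i | e i ∈ O} with hI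
  have hJE : e '' (S ∩ I) ⊆ eigenvectors A := by
    rintro _ ⟨i, hi, rfl⟩
    exact hOE hi.2
  have hJA := hA.spanProj_mem _ hJE
  have hEA := hA.spanProj_mem _ (subset_refl (eigenvectors A))
  rcases zero_or_one hm hEA (spanProj_mul_self _) with h0 | h1
  · exact h0
  exfalso
  have hprod : spanProj (e '' S) * spanProj (eigenvectors A) = spanProj (e '' (S ∩ I)) := by
    refine ContinuousLinearMap.ext_on
      (s := Set.range e) ((Submodule.dense_iff_topologicalClosure_eq_top).2 hspan) ?_
    rintro _ ⟨i, rfl⟩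
    rw [ContinuousLinearMap.mul_apply]
    by_cases hi : i ∈ I
    · rw [spanProj_mem _ (hOE hi)]
      by_cases hiS : i ∈ S
      · rw [spanProj_mem _ (Set.mem_image_of_mem _ hiS),
          spanProj_mem _ (Set.mem_image_of_mem e (show i ∈ S ∩ I from ⟨hiS, hi⟩))]
      · rw [spanProj_orth, spanProj_orth]
        · rintro _ ⟨j, hj, rfl⟩
          exact heo.2 (by rintro rfl; exact hiS hj.1)
        · rintro _ ⟨j, hj, rfl⟩
          exact heo.2 (by rintro rfl; exact hiS hj)
    · have hz : spanProj (eigenvectors A) (e i) = 0 := by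
        refine spanProj_orth _ (fun y hy => ?_)
        have h2 : ∀ z ∈ Submodule.span ℂ O, ⟪z, e i⟫_ℂ = 0 := by
          intro z hz
          refine Submodule.span_induction (fun u hu => ?_) (inner_zero_left _) ?_ ?_ hz
          · have hu' : u ∈ Set.range e := by rw [hrange]; exact hOw hu
            obtain ⟨j, rfl⟩ := hu'
            exact heo.2 (by rintro rfl; exact hi hu)
          · intro u v _ _ hu hv
            rw [inner_add_left, hu, hv, add_zero]
          · intro a u _ hu
            rw [inner_smul_left, hu, mul_zero]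
        have hcl : IsClosed {y : H | ⟪y, e i⟫_ℂ = 0} :=
          isClosed_eq (continuous_id.inner continuous_const) continuous_const
        exact closure_minimal (s := (Submodule.span ℂ O : Set H)) (t := {y : H | ⟪y, e i⟫_ℂ = 0})
          h2 hcl (hOs y hy)
      rw [hz, map_zero, spanProj_orth]
      rintro _ ⟨j, hj, rfl⟩
      exact heo.2 (by rintro rfl; exact hi hj.2)
  have hval : φ (spanProj (e '' (S ∩ I))) = φ (spanProj (e '' S)) := by
    rw [← hprod]
    exact hφ.mul_right (spanProj_star _) (spanProj_mul_self _) h1 _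
  rcases zero_or_one hm hJA (spanProj_mul_self _) with h2 | h2
  · rw [hval] at h2
    rw [h2, Complex.zero_re] at hS1
    norm_num at hS1
  · rw [hval] at h2
    rw [h2, Complex.one_re] at hS2
    norm_num at hS2

end Pool.Agent.Lib.MP_0baf06_lc
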