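import Pool.Agent.Lib.MP_0baf06_lc.Data

/-!
The finite intersection property.
-/

open scoped InnerProductSpace BigOperators Topology

set_option linter.unusedSectionVars false

namespace Pool.Agent.Lib.MP_0baf06_lc

variable {H : Type*} [NormedAddCommGroup H] [InnerProductSpace ℂ H] [CompleteSpace H]

/-- The first `k` values of a sequence. -/
def restr (k : ℕ) (x : ℕ → Bool) : SS k := fun i => x i

lemma eventually_inj {ι : Type*} (F : Finset ι) (x : ι → ℕ → Bool)
    (hx : ∀ a ∈ F, ∀ a' ∈ F, x a = x a' → a = a') :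
    ∀ᶠ k in Filter.atTop, ∀ a ∈ F, ∀ a' ∈ F, restr k (x a) = restr k (x a') → a = a' := by
  rw [Filter.eventually_all_finset]
  intro a ha
  rw [Filter.eventually_all_finset]
  intro a' ha'
  by_cases h : x a = x a'
  · exact Filter.Eventually.of_forall (fun k _ => hx a ha a' ha' h)
  · obtain ⟨i, hi⟩ := Function.ne_iff.1 h
    filter_upwards [Filter.eventually_gt_atTop i] with k hk h'
    exact absurd (congrFun h' ⟨i, hk⟩) hi

theorem fip {ι : Type*} (b : Idx → H) (hb : Orthonormal ℂ b) (F : Finset ι) (x : ι → ℕ → Bool)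
    (hx : ∀ a ∈ F, ∀ a' ∈ F, x a = x a' → a = a')
    (ε : ι → ∀ k, Fin ((DD k) ^ 2) → Bool) (L : ι → ∀ k, Finset (VV k))
    (hL : ∀ a k, ((L a k).card : ℝ) ≤ bound k) :
    ∃ y : H, y ≠ 0 ∧ ∀ a ∈ F,
      y ∈ (⨆ k, (Wc (restr k (x a)) (ε a k) (L a k)).map (J b k)).topologicalClosure := by
  classical
  obtain ⟨k, hinj, hk⟩ := ((eventually_inj F x hx).and (Filter.eventually_ge_atTop F.card)).exists
  set T : Finset (SS k) := F.image (fun a => restr k (x a)) with hT
  have hTc : T.card = F.card := Finset.card_image_of_injOn (fun a ha a' ha' h =>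
    hinj a ha a' ha' h)
  let ε' : SS k → Fin ((DD k) ^ 2) → Bool := fun s =>
    if h : ∃ a ∈ F, restr k (x a) = s then ε h.choose k else fun _ => true
  have hε' : ∀ a ∈ F, ε' (restr k (x a)) = ε a k := by
    intro a ha
    have h : ∃ a' ∈ F, restr k (x a') = restr k (x a) := ⟨a, ha, rfl⟩
    have h1 : h.choose = a := hinj _ h.choose_spec.1 _ ha h.choose_spec.2
    simp only [ε', dif_pos h, h1]
  set La : Finset (VV k) := F.biUnion (fun a => L a k) with hLa
  have hD : 0 < (DD k) ^ 2 := by have := DD_two k; positivity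
  have hcard : La.card < ((DD k) ^ 2) ^ (Fintype.card (SS k) - T.card) := by
    have h1 : (La.card : ℝ) ≤ F.card * bound k := by
      calc (La.card : ℝ) ≤ ((∑ a ∈ F, (L a k).card : ℕ) : ℝ) := by
            exact_mod_cast Finset.card_biUnion_le
        _ = ∑ a ∈ F, ((L a k).card : ℝ) := by push_cast; rfl
        _ ≤ ∑ a ∈ F, bound k := Finset.sum_le_sum (fun a _ => hL a k)
        _ = F.card * bound k := by rw [Finset.sum_const, nsmul_eq_mul]
    have h2 := h1.trans_lt (bound_lt k F.card hk)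
    rw [hTc, Fintype.card_fun, Fintype.card_bool, Fintype.card_fin]
    exact_mod_cast h2
  obtain ⟨f, hf0, hfW, hfL⟩ := exists_common hD T ε' La hcard
  refine ⟨J b k f, ?_, ?_⟩
  · intro h
    apply hf0
    rw [← norm_eq_zero, ← norm_J b hb, h, norm_zero]
  · intro a ha
    refine Submodule.le_topologicalClosure _ ?_
    refine Submodule.mem_iSup_of_mem k ⟨f, ?_, rfl⟩
    refine (mem_Wc _ _ _ _).2 ⟨?_, ?_⟩
    · have := hfW (restr k (x a)) (Finset.mem_image_of_mem _ ha)
      rwa [hε' a ha] at this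
    · intro v hv
      exact hfL v (Finset.mem_biUnion.2 ⟨a, ha, hv⟩)

/-- The main construction: a family of closed subspaces with the finite intersection property,
one for each orthonormal basis, on which a diagonal symmetry of the basis is small. -/
theorem main_family {ι : Type*} (b : Idx → H) (hb : Orthonormal ℂ b) (e : ι → HilbertBasis ℕ ℂ H)
    (x : ι → ℕ → Bool) (hx : Function.Injective x) :
    ∃ (σ : ι → ℕ → Bool) (Q : ι → Submodule ℂ H), (∀ a, IsClosed (Q a : Set H)) ∧
      (∀ a, ∀ y ∈ Q a,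
        |2 * ‖spanProj (e a '' {i | σ a i = true}) y‖ ^ 2 - ‖y‖ ^ 2| ≤ 1 / 2 * ‖y‖ ^ 2) ∧
      ∀ F : Finset ι, ∃ y : H, y ≠ 0 ∧ ∀ a ∈ F, y ∈ Q a := by
  choose σ ε L hL hbal using fun a => data b hb (e a) (x a)
  refine ⟨σ, fun a => (⨆ k, (Wc (restr k (x a)) (ε a k) (L a k)).map (J b k)).topologicalClosure,
    fun a => Submodule.isClosed_topologicalClosure _, hbal, ?_⟩
  intro F
  exact fip b hb F x (fun a _ a' _ h => hx h) ε L hL

end Pool.Agent.Lib.MP_0baf06_lc
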