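import Mathlib

/-!
A moment bound (non-commutative Khintchine inequality with a crude constant) for sums
`∑ ± |u_i⟩⟨u_i|` of rank one operators with independent signs.
-/

open scoped InnerProductSpace BigOperators

set_option linter.unusedSectionVars false

namespace Pool.Agent.Lib.MP_0baf06_lc

/-- The sign of a boolean. -/
def sg (b : Bool) : ℝ := if b then 1 else -1

@[simp] lemma sg_true : sg true = 1 := rfl
@[simp] lemma sg_false : sg false = -1 := rfl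

lemma sg_not (b : Bool) : sg (!b) = - sg b := by cases b <;> simp

lemma sg_mul_self (b : Bool) : sg b * sg b = 1 := by cases b <;> simp

lemma abs_sg (b : Bool) : |sg b| = 1 := by cases b <;> simp

section flip

variable {ι : Type*} [DecidableEq ι]

/-- Change the `j`-th sign. -/
def flip (j : ι) (σ : ι → Bool) : ι → Bool := Function.update σ j (!σ j)

lemma flip_same (j : ι) (σ : ι → Bool) : flip j σ j = !σ j := by simp [flip]

lemma flip_ne {i j : ι} (h : i ≠ j) (σ : ι → Bool) : flip j σ i = σ i := by simp [flip, h]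

lemma flip_flip (j : ι) (σ : ι → Bool) : flip j (flip j σ) = σ := by
  funext i
  by_cases h : i = j
  · subst h; simp [flip]
  · simp [flip, h]

lemma sum_flip [Fintype ι] {M : Type*} [AddCommMonoid M] (j : ι) (f : (ι → Bool) → M) :
    ∑ σ, f (flip j σ) = ∑ σ, f σ :=
  Fintype.sum_equiv ⟨flip j, flip j, flip_flip j, flip_flip j⟩ _ _ (fun _ => rfl)

end flip

section spectral

variable {E : Type*} [NormedAddCommGroup E] [InnerProductSpace ℂ E] [FiniteDimensional ℂ E]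

/-- Spectral data of a symmetric operator. -/
lemma spec {T : E →ₗ[ℂ] E} (hT : T.IsSymmetric) :
    ∃ (n : ℕ) (f : OrthonormalBasis (Fin n) ℂ E) (l : Fin n → ℝ),
      n = Module.finrank ℂ E ∧ ∀ (j : ℕ) (i : Fin n), (T ^ j) (f i) = ((l i : ℂ) ^ j) • f i := by
  refine ⟨Module.finrank ℂ E, hT.eigenvectorBasis rfl, hT.eigenvalues rfl, rfl, ?_⟩
  intro j i
  induction j with
  | zero => simp
  | succ j ih =>
      rw [pow_succ', Module.End.mul_apply, ih, map_smul, hT.apply_eigenvectorBasis, smul_smul,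
        pow_succ]
      rfl

lemma inner_pow {T : E →ₗ[ℂ] E} {n : ℕ} (f : OrthonormalBasis (Fin n) ℂ E) (l : Fin n → ℝ)
    (h : ∀ (j : ℕ) (i : Fin n), (T ^ j) (f i) = ((l i : ℂ) ^ j) • f i) (j : ℕ) (x : E) :
    ⟪x, (T ^ j) x⟫_ℂ = ((∑ i, l i ^ j * ‖⟪f i, x⟫_ℂ‖ ^ 2 : ℝ) : ℂ) := by
  have hx : (T ^ j) x = ∑ i, (⟪f i, x⟫_ℂ * (l i : ℂ) ^ j) • f i := by
    conv_lhs => rw [← f.sum_repr' x]
    rw [map_sum]
    refine Finset.sum_congr rfl (fun i _ => ?_)
    rw [map_smul, h, smul_smul]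
  rw [hx, inner_sum]
  push_cast
  refine Finset.sum_congr rfl (fun i _ => ?_)
  rw [inner_smul_right]
  have : ⟪x, f i⟫_ℂ = (starRingEnd ℂ) ⟪f i, x⟫_ℂ := (inner_conj_symm _ _).symm
  rw [this]
  have h2 : ⟪f i, x⟫_ℂ * (starRingEnd ℂ) ⟪f i, x⟫_ℂ = ((‖⟪f i, x⟫_ℂ‖ : ℂ)) ^ 2 :=
    Complex.mul_conj' _
  calc ⟪f i, x⟫_ℂ * (l i : ℂ) ^ j * (starRingEnd ℂ) ⟪f i, x⟫_ℂ
      = (l i : ℂ) ^ j * (⟪f i, x⟫_ℂ * (starRingEnd ℂ) ⟪f i, x⟫_ℂ) := by ring
    _ = _ := by rw [h2]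

lemma trace_pow {T : E →ₗ[ℂ] E} {n : ℕ} (f : OrthonormalBasis (Fin n) ℂ E) (l : Fin n → ℝ)
    (h : ∀ (j : ℕ) (i : Fin n), (T ^ j) (f i) = ((l i : ℂ) ^ j) • f i) (j : ℕ) :
    (T ^ j).trace ℂ E = ((∑ i, l i ^ j : ℝ) : ℂ) := by
  rw [LinearMap.trace_eq_sum_inner _ f]
  push_cast
  refine Finset.sum_congr rfl (fun i _ => ?_)
  rw [h, inner_smul_right]
  have : ⟪f i, f i⟫_ℂ = 1 := by
    rw [inner_self_eq_norm_sq_to_K, f.orthonormal.1 i]; simp
  rw [this, mul_one]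

/-- The `2r`-th moment of a symmetric operator. -/
noncomputable def mom (T : E →ₗ[ℂ] E) (r : ℕ) : ℝ := ((T ^ (2 * r)).trace ℂ E).re

lemma mom_nonneg {T : E →ₗ[ℂ] E} (hT : T.IsSymmetric) (r : ℕ) : 0 ≤ mom T r := by
  obtain ⟨n, f, l, -, h⟩ := spec hT
  rw [mom, trace_pow f l h, Complex.ofReal_re]
  exact Finset.sum_nonneg (fun i _ => (even_two_mul r).pow_nonneg _)

lemma mom_zero (T : E →ₗ[ℂ] E) : mom T 0 = Module.finrank ℂ E := by
  simp [mom]

lemma scalar_bound (a b : ℝ) (r j : ℕ) (hj : j ≤ 2 * r) :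
    a ^ j * b ^ (2 * r - j) ≤ a ^ (2 * r) + b ^ (2 * r) := by
  have h1 : a ^ j * b ^ (2 * r - j) ≤ |a| ^ j * |b| ^ (2 * r - j) := by
    rw [← abs_pow, ← abs_pow, ← abs_mul]; exact le_abs_self _
  have hab : ∀ c d : ℝ, 0 ≤ c → c ≤ d → c ^ j * d ^ (2 * r - j) ≤ d ^ (2 * r) ∧
      d ^ j * c ^ (2 * r - j) ≤ d ^ (2 * r) := by
    intro c d hc hcd
    have hd : 0 ≤ d := hc.trans hcd
    constructor
    · calc c ^ j * d ^ (2 * r - j) ≤ d ^ j * d ^ (2 * r - j) := by gcongr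
        _ = d ^ (2 * r) := by rw [← pow_add]; congr 1; omega
    · calc d ^ j * c ^ (2 * r - j) ≤ d ^ j * d ^ (2 * r - j) := by gcongr
        _ = d ^ (2 * r) := by rw [← pow_add]; congr 1; omega
  have ea : |a| ^ (2 * r) = a ^ (2 * r) := by rw [(even_two_mul r).pow_abs]
  have eb : |b| ^ (2 * r) = b ^ (2 * r) := by rw [(even_two_mul r).pow_abs]
  have na : 0 ≤ a ^ (2 * r) := (even_two_mul r).pow_nonneg _
  have nb : 0 ≤ b ^ (2 * r) := (even_two_mul r).pow_nonneg _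
  rcases le_total |a| |b| with h | h
  · have := (hab |a| |b| (abs_nonneg _) h).1
    rw [eb] at this; linarith
  · have := (hab |b| |a| (abs_nonneg _) h).2
    rw [ea] at this; linarith

lemma sum_sq_inner {n : ℕ} (f : OrthonormalBasis (Fin n) ℂ E) (x : E) :
    ∑ i, ‖⟪f i, x⟫_ℂ‖ ^ 2 = ‖x‖ ^ 2 := f.sum_sq_norm_inner_right x

/-- The key inequality in the integration by parts. -/
lemma key {A B : E →ₗ[ℂ] E} (hA : A.IsSymmetric) (hB : B.IsSymmetric) (u : E) (r : ℕ) :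
    ∑ j ∈ Finset.range (2 * r + 1),
      (⟪u, (A ^ j) u⟫_ℂ).re * (⟪u, (B ^ (2 * r - j)) u⟫_ℂ).re ≤
    (2 * r + 1) * ‖u‖ ^ 2 * ((⟪u, (A ^ (2 * r)) u⟫_ℂ).re + (⟪u, (B ^ (2 * r)) u⟫_ℂ).re) := by
  obtain ⟨n, f, l, -, hf⟩ := spec hA
  obtain ⟨m, g, k, -, hg⟩ := spec hB
  simp only [inner_pow f l hf, inner_pow g k hg, Complex.ofReal_re]
  set c : Fin n → ℝ := fun i => ‖⟪f i, u⟫_ℂ‖ ^ 2 with hc
  set d : Fin m → ℝ := fun i => ‖⟪g i, u⟫_ℂ‖ ^ 2 with hd
  have hc0 : ∀ i, 0 ≤ c i := fun i => by positivity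
  have hd0 : ∀ i, 0 ≤ d i := fun i => by positivity
  have hcs : ∑ i, c i = ‖u‖ ^ 2 := sum_sq_inner f u
  have hds : ∑ i, d i = ‖u‖ ^ 2 := sum_sq_inner g u
  have e1 : ∀ j, (∑ i, l i ^ j * c i) * (∑ i, k i ^ (2 * r - j) * d i) =
      ∑ i, ∑ i', (c i * d i') * (l i ^ j * k i' ^ (2 * r - j)) := by
    intro j
    rw [Finset.sum_mul_sum]
    refine Finset.sum_congr rfl (fun i _ => Finset.sum_congr rfl (fun i' _ => by ring))
  calc ∑ j ∈ Finset.range (2 * r + 1), (∑ i, l i ^ j * c i) * (∑ i, k i ^ (2 * r - j) * d i)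
      = ∑ j ∈ Finset.range (2 * r + 1), ∑ i, ∑ i', (c i * d i') * (l i ^ j * k i' ^ (2 * r - j)) :=
        Finset.sum_congr rfl (fun j _ => e1 j)
    _ ≤ ∑ j ∈ Finset.range (2 * r + 1), ∑ i, ∑ i', (c i * d i') *
          (l i ^ (2 * r) + k i' ^ (2 * r)) := by
        refine Finset.sum_le_sum (fun j hj => Finset.sum_le_sum (fun i _ =>
          Finset.sum_le_sum (fun i' _ => ?_)))
        refine mul_le_mul_of_nonneg_left ?_ (mul_nonneg (hc0 i) (hd0 i'))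
        exact scalar_bound _ _ _ _ (by have := Finset.mem_range.1 hj; omega)
    _ = (2 * r + 1) * (∑ i, ∑ i', (c i * d i') * (l i ^ (2 * r) + k i' ^ (2 * r))) := by
        rw [Finset.sum_const, Finset.card_range, nsmul_eq_mul]; push_cast; ring
    _ = (2 * r + 1) * ((∑ i, l i ^ (2 * r) * c i) * (∑ i', d i') +
          (∑ i, c i) * (∑ i', k i' ^ (2 * r) * d i')) := by
        congr 1
        rw [Finset.sum_mul_sum, Finset.sum_mul_sum, ← Finset.sum_add_distrib]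
        refine Finset.sum_congr rfl (fun i _ => ?_)
        rw [← Finset.sum_add_distrib]
        refine Finset.sum_congr rfl (fun i' _ => by ring)
    _ = _ := by rw [hcs, hds]; ring

end spectral

section khintchine

variable {E : Type*} [NormedAddCommGroup E] [InnerProductSpace ℂ E] [FiniteDimensional ℂ E]

/-- The operator `x ↦ ⟪u, x⟫ u`. -/
noncomputable def ro (u : E) : E →ₗ[ℂ] E := (innerₛₗ ℂ u).smulRight u

@[simp] lemma ro_apply (u x : E) : ro u x = ⟪u, x⟫_ℂ • u := rfl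

lemma ro_symm (u : E) : (ro u).IsSymmetric := by
  intro x y
  simp only [ro_apply, inner_smul_left, inner_smul_right, inner_conj_symm]
  ring

lemma trace_ro_mul (u : E) (T : E →ₗ[ℂ] E) : (ro u * T).trace ℂ E = ⟪u, T u⟫_ℂ := by
  rw [LinearMap.trace_mul_comm]
  have : T * ro u = (InnerProductSpace.rankOne ℂ (T u) u).toLinearMap := by
    ext x
    simp [Module.End.mul_apply, InnerProductSpace.rankOne_apply]
  rw [this]
  exact InnerProductSpace.trace_rankOne _ _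

variable {ι : Type*} [Fintype ι] [DecidableEq ι]

/-- The signed sum of the rank one operators `|u_i⟩⟨u_i|`, `i ∈ s`. -/
noncomputable def Zs (u : ι → E) (s : Finset ι) (σ : ι → Bool) : E →ₗ[ℂ] E :=
  ∑ i ∈ s, (sg (σ i) : ℂ) • ro (u i)

lemma Zs_symm (u : ι → E) (s : Finset ι) (σ : ι → Bool) : (Zs u s σ).IsSymmetric := by
  intro x y
  simp only [Zs, LinearMap.sum_apply, LinearMap.smul_apply, sum_inner, inner_sum, inner_smul_left,
    inner_smul_right, Complex.conj_ofReal]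
  refine Finset.sum_congr rfl (fun i _ => ?_)
  rw [ro_symm (u i) x y]

lemma Zs_flip (u : ι → E) (s : Finset ι) (σ : ι → Bool) {i : ι} (hi : i ∈ s) :
    Zs u s σ - Zs u s (flip i σ) = (2 * (sg (σ i) : ℂ)) • ro (u i) := by
  rw [Zs, Zs, ← Finset.sum_sub_distrib, Finset.sum_eq_single i]
  · rw [flip_same, sg_not, ← sub_smul]; push_cast; ring_nf
  · intro j _ hj
    rw [flip_ne hj, sub_self]
  · intro h; exact absurd hi h

/-- Telescoping for non-commuting powers. -/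
lemma pow_sub_pow_nc {R : Type*} [Ring R] (A B : R) (m : ℕ) :
    A ^ (m + 1) - B ^ (m + 1) = ∑ j ∈ Finset.range (m + 1), A ^ j * (A - B) * B ^ (m - j) := by
  induction m with
  | zero => simp
  | succ m ih =>
      rw [Finset.sum_range_succ]
      have : ∑ j ∈ Finset.range (m + 1), A ^ j * (A - B) * B ^ (m + 1 - j) =
          (∑ j ∈ Finset.range (m + 1), A ^ j * (A - B) * B ^ (m - j)) * B := by
        rw [Finset.sum_mul]
        refine Finset.sum_congr rfl (fun j hj => ?_)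
        have hj' : j ≤ m := Nat.lt_succ_iff.1 (Finset.mem_range.1 hj)
        rw [Nat.succ_sub hj', pow_succ, ← mul_assoc]
      rw [this, ← ih, Nat.sub_self, pow_zero, mul_one, sub_mul, mul_sub, ← pow_succ, ← pow_succ]
      abel_nf

/-- One step of integration by parts. -/
lemma step (u : ι → E) (s : Finset ι) (r : ℕ) :
    ∑ σ, mom (Zs u s σ) (r + 1) ≤
      2 * (2 * r + 1) * ∑ σ, ∑ i ∈ s, ‖u i‖ ^ 2 * (⟪u i, ((Zs u s σ) ^ (2 * r)) (u i)⟫_ℂ).re := by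
  have h1 : ∀ σ, mom (Zs u s σ) (r + 1) =
      ∑ i ∈ s, sg (σ i) * (⟪u i, ((Zs u s σ) ^ (2 * r + 1)) (u i)⟫_ℂ).re := by
    intro σ
    have : (Zs u s σ) ^ (2 * (r + 1)) = ∑ i ∈ s, (sg (σ i) : ℂ) •
        (ro (u i) * (Zs u s σ) ^ (2 * r + 1)) := by
      conv_lhs => rw [show 2 * (r + 1) = (2 * r + 1) + 1 by ring, pow_succ']
      conv_lhs => rw [Zs]
      rw [Finset.sum_mul]
      refine Finset.sum_congr rfl (fun i _ => ?_)
      rw [smul_mul_assoc]
      rfl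
    rw [mom, this, map_sum, Complex.re_sum]
    refine Finset.sum_congr rfl (fun i _ => ?_)
    rw [map_smul, trace_ro_mul, smul_eq_mul, Complex.re_ofReal_mul]
  have h2 : ∀ i ∈ s, ∑ σ, sg (σ i) * (⟪u i, ((Zs u s σ) ^ (2 * r + 1)) (u i)⟫_ℂ).re ≤
      2 * (2 * r + 1) * ∑ σ, ‖u i‖ ^ 2 * (⟪u i, ((Zs u s σ) ^ (2 * r)) (u i)⟫_ℂ).re := by
    intro i hi
    set g : (ι → Bool) → ℝ := fun σ => (⟪u i, ((Zs u s σ) ^ (2 * r + 1)) (u i)⟫_ℂ).re with hg
    set G : (ι → Bool) → ℝ := fun σ => (⟪u i, ((Zs u s σ) ^ (2 * r)) (u i)⟫_ℂ).re with hG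
    have e1 : ∑ σ, sg (σ i) * g σ = ∑ σ, (1 / 2) * (sg (σ i) * (g σ - g (flip i σ))) := by
      have : ∑ σ, sg (σ i) * g σ = ∑ σ, - (sg (σ i) * g (flip i σ)) := by
        rw [← sum_flip i (fun σ => sg (σ i) * g σ)]
        refine Finset.sum_congr rfl (fun σ _ => ?_)
        rw [flip_same, sg_not]; ring
      have e : ∑ σ, (1 / 2) * (sg (σ i) * (g σ - g (flip i σ))) =
          (1 / 2) * (∑ σ, sg (σ i) * g σ + ∑ σ, - (sg (σ i) * g (flip i σ))) := by
        rw [← Finset.sum_add_distrib, Finset.mul_sum]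
        refine Finset.sum_congr rfl (fun σ _ => by ring)
      rw [e, ← this]; ring
    have e2 : ∀ σ, (1 / 2) * (sg (σ i) * (g σ - g (flip i σ))) =
        ∑ j ∈ Finset.range (2 * r + 1), (⟪u i, ((Zs u s σ) ^ j) (u i)⟫_ℂ).re *
          (⟪u i, ((Zs u s (flip i σ)) ^ (2 * r - j)) (u i)⟫_ℂ).re := by
      intro σ
      have hd : (Zs u s σ) ^ (2 * r + 1) - (Zs u s (flip i σ)) ^ (2 * r + 1) =
          ∑ j ∈ Finset.range (2 * r + 1), (2 * (sg (σ i) : ℂ)) •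
            ((Zs u s σ) ^ j * ro (u i) * (Zs u s (flip i σ)) ^ (2 * r - j)) := by
        rw [pow_sub_pow_nc, Zs_flip u s σ hi]
        refine Finset.sum_congr rfl (fun j _ => ?_)
        rw [mul_smul_comm, smul_mul_assoc]
      have hgd : g σ - g (flip i σ) = (⟪u i, ((Zs u s σ) ^ (2 * r + 1) -
          (Zs u s (flip i σ)) ^ (2 * r + 1)) (u i)⟫_ℂ).re := by
        rw [LinearMap.sub_apply, inner_sub_right, Complex.sub_re]
      rw [hgd, hd, LinearMap.sum_apply, inner_sum, Complex.re_sum, Finset.mul_sum, Finset.mul_sum]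
      refine Finset.sum_congr rfl (fun j _ => ?_)
      rw [LinearMap.smul_apply, inner_smul_right, Module.End.mul_apply, Module.End.mul_apply,
        ro_apply, map_smul, inner_smul_right]
      obtain ⟨n, f, l, -, hf⟩ := spec (Zs_symm u s σ)
      obtain ⟨m, f', k, -, hf'⟩ := spec (Zs_symm u s (flip i σ))
      rw [inner_pow f l hf, inner_pow f' k hf']
      rw [Complex.ofReal_re, Complex.ofReal_re]
      have : (2 * (sg (σ i) : ℂ) * (((∑ i_1, k i_1 ^ (2 * r - j) * ‖⟪f' i_1, u i⟫_ℂ‖ ^ 2 : ℝ) : ℂ) *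
          ((∑ i_1, l i_1 ^ j * ‖⟪f i_1, u i⟫_ℂ‖ ^ 2 : ℝ) : ℂ))).re =
          2 * sg (σ i) * ((∑ i_1, k i_1 ^ (2 * r - j) * ‖⟪f' i_1, u i⟫_ℂ‖ ^ 2) *
          (∑ i_1, l i_1 ^ j * ‖⟪f i_1, u i⟫_ℂ‖ ^ 2)) := by
        rw [← Complex.ofReal_re (2 * sg (σ i) * ((∑ i_1, k i_1 ^ (2 * r - j) * ‖⟪f' i_1, u i⟫_ℂ‖ ^ 2) *
          (∑ i_1, l i_1 ^ j * ‖⟪f i_1, u i⟫_ℂ‖ ^ 2)))]
        push_cast
        rfl
      rw [this]
      have hs := sg_mul_self (σ i)
      calc _ = (sg (σ i) * sg (σ i)) * ((∑ i_1, k i_1 ^ (2 * r - j) * ‖⟪f' i_1, u i⟫_ℂ‖ ^ 2) *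
          (∑ i_1, l i_1 ^ j * ‖⟪f i_1, u i⟫_ℂ‖ ^ 2)) := by ring
        _ = _ := by rw [hs]; ring
    rw [e1]
    calc ∑ σ, (1 / 2) * (sg (σ i) * (g σ - g (flip i σ)))
        ≤ ∑ σ, (2 * r + 1) * ‖u i‖ ^ 2 * (G σ + G (flip i σ)) := by
          refine Finset.sum_le_sum (fun σ _ => ?_)
          rw [e2]
          exact key (Zs_symm u s σ) (Zs_symm u s (flip i σ)) (u i) r
      _ = (2 * r + 1) * ‖u i‖ ^ 2 * (∑ σ, G σ + ∑ σ, G (flip i σ)) := by
          rw [← Finset.sum_add_distrib, Finset.mul_sum]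
      _ = 2 * (2 * r + 1) * ∑ σ, ‖u i‖ ^ 2 * G σ := by
          rw [sum_flip i G, ← Finset.mul_sum]; ring
  calc ∑ σ, mom (Zs u s σ) (r + 1)
      = ∑ i ∈ s, ∑ σ, sg (σ i) * (⟪u i, ((Zs u s σ) ^ (2 * r + 1)) (u i)⟫_ℂ).re := by
        rw [Finset.sum_comm]
        exact Finset.sum_congr rfl (fun σ _ => h1 σ)
    _ ≤ ∑ i ∈ s, 2 * (2 * r + 1) * ∑ σ, ‖u i‖ ^ 2 * (⟪u i, ((Zs u s σ) ^ (2 * r)) (u i)⟫_ℂ).re :=
        Finset.sum_le_sum h2
    _ = _ := by
        rw [← Finset.mul_sum, Finset.sum_comm]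

/-- The moment bound. -/
theorem khintchine (u : ι → E) (s : Finset ι) {η : ℝ} (hη : ∀ i ∈ s, ‖u i‖ ^ 2 ≤ η) (hη0 : 0 ≤ η)
    (hb : ∀ x : E, ∑ i ∈ s, ‖⟪u i, x⟫_ℂ‖ ^ 2 ≤ ‖x‖ ^ 2) (r : ℕ) :
    ∑ σ, mom (Zs u s σ) r ≤ 2 ^ Fintype.card ι * (4 * r * η) ^ r * Module.finrank ℂ E := by
  have hstep : ∀ r : ℕ, ∑ σ, mom (Zs u s σ) (r + 1) ≤
      2 * (2 * (r : ℝ) + 1) * η * ∑ σ, mom (Zs u s σ) r := by
    intro r
    refine (step u s r).trans ?_
    have hre : 2 * (2 * (r : ℝ) + 1) * η * ∑ σ, mom (Zs u s σ) r =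
        2 * (2 * (r : ℝ) + 1) * (η * ∑ σ, mom (Zs u s σ) r) := by ring
    rw [hre]
    refine mul_le_mul_of_nonneg_left ?_ (by positivity)
    rw [Finset.mul_sum]
    refine Finset.sum_le_sum (fun σ _ => ?_)
    obtain ⟨n, f, l, -, hf⟩ := spec (Zs_symm u s σ)
    have hm : mom (Zs u s σ) r = ∑ i, l i ^ (2 * r) := by
      rw [mom, trace_pow f l hf, Complex.ofReal_re]
    rw [hm]
    calc ∑ i ∈ s, ‖u i‖ ^ 2 * (⟪u i, ((Zs u s σ) ^ (2 * r)) (u i)⟫_ℂ).re
        ≤ ∑ i ∈ s, η * ∑ a, l a ^ (2 * r) * ‖⟪f a, u i⟫_ℂ‖ ^ 2 := by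
          refine Finset.sum_le_sum (fun i hi => ?_)
          rw [inner_pow f l hf, Complex.ofReal_re]
          refine mul_le_mul_of_nonneg_right (hη i hi) ?_
          exact Finset.sum_nonneg (fun a _ => mul_nonneg ((even_two_mul r).pow_nonneg _)
            (by positivity))
      _ = η * ∑ a, l a ^ (2 * r) * ∑ i ∈ s, ‖⟪u i, f a⟫_ℂ‖ ^ 2 := by
          rw [← Finset.mul_sum, Finset.sum_comm]
          congr 1
          refine Finset.sum_congr rfl (fun a _ => ?_)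
          rw [Finset.mul_sum]
          refine Finset.sum_congr rfl (fun i _ => ?_)
          rw [norm_inner_symm]
      _ ≤ η * ∑ a, l a ^ (2 * r) := by
          refine mul_le_mul_of_nonneg_left (Finset.sum_le_sum (fun a _ => ?_)) hη0
          have h1 := hb (f a)
          rw [f.orthonormal.1 a] at h1
          have h2 : 0 ≤ l a ^ (2 * r) := (even_two_mul r).pow_nonneg _
          nlinarith
  have main : ∀ q : ℕ, q ≤ r → ∑ σ, mom (Zs u s σ) q ≤
      2 ^ Fintype.card ι * (4 * r * η) ^ q * Module.finrank ℂ E := by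
    intro q
    induction q with
    | zero =>
        intro _
        simp only [mom_zero, Finset.sum_const, Finset.card_univ, nsmul_eq_mul, pow_zero, mul_one]
        rw [Fintype.card_fun, Fintype.card_bool]
        push_cast
        exact le_rfl
    | succ q ih =>
        intro hq
        have ih' := ih (by omega)
        have hc : (2 : ℝ) * (2 * q + 1) * η ≤ 4 * r * η := by
          refine mul_le_mul_of_nonneg_right ?_ hη0
          have : (q : ℝ) + 1 ≤ r := by exact_mod_cast hq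
          linarith
        have hnn : 0 ≤ ∑ σ, mom (Zs u s σ) q :=
          Finset.sum_nonneg (fun σ _ => mom_nonneg (Zs_symm u s σ) q)
        calc ∑ σ, mom (Zs u s σ) (q + 1) ≤ 2 * (2 * q + 1) * η * ∑ σ, mom (Zs u s σ) q := hstep q
          _ ≤ (4 * r * η) * (2 ^ Fintype.card ι * (4 * r * η) ^ q * Module.finrank ℂ E) := by
              refine mul_le_mul hc ih' hnn (by positivity)
          _ = _ := by ring
  exact main r le_rfl

end khintchine

section extract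

variable {E : Type*} [NormedAddCommGroup E] [InnerProductSpace ℂ E] [FiniteDimensional ℂ E]

/-- Few constraints make a symmetric operator with a small moment small. -/
theorem extract {T : E →ₗ[ℂ] E} (hT : T.IsSymmetric) (r : ℕ) :
    ∃ L : Finset E, (L.card : ℝ) ≤ 16 ^ r * mom T r ∧
      ∀ x : E, (∀ v ∈ L, ⟪v, x⟫_ℂ = 0) → |(⟪x, T x⟫_ℂ).re| ≤ 1 / 4 * ‖x‖ ^ 2 := by
  classical
  obtain ⟨n, f, l, -, hf⟩ := spec hT
  set bad : Finset (Fin n) := Finset.univ.filter (fun i => 1 / 4 < |l i|) with hbad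
  refine ⟨bad.image f, ?_, ?_⟩
  · have hm : mom T r = ∑ i, l i ^ (2 * r) := by
      rw [mom, trace_pow f l hf, Complex.ofReal_re]
    have h1 : ((bad.image f).card : ℝ) ≤ bad.card := by exact_mod_cast Finset.card_image_le
    refine h1.trans ?_
    have h2 : ∀ i ∈ bad, (1 : ℝ) ≤ 16 ^ r * l i ^ (2 * r) := by
      intro i hi
      have hi' : 1 / 4 < |l i| := (Finset.mem_filter.1 hi).2
      have : (16 : ℝ) ^ r * l i ^ (2 * r) = (16 * |l i| ^ 2) ^ r := by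
        rw [mul_pow, ← pow_mul, (even_two_mul r).pow_abs]
      rw [this]
      refine one_le_pow₀ ?_
      nlinarith [abs_nonneg (l i)]
    calc (bad.card : ℝ) = ∑ i ∈ bad, (1 : ℝ) := by simp
      _ ≤ ∑ i ∈ bad, 16 ^ r * l i ^ (2 * r) := Finset.sum_le_sum h2
      _ ≤ ∑ i, 16 ^ r * l i ^ (2 * r) :=
          Finset.sum_le_sum_of_subset_of_nonneg (Finset.subset_univ _)
            (fun i _ _ => mul_nonneg (by positivity) ((even_two_mul r).pow_nonneg _))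
      _ = 16 ^ r * mom T r := by rw [hm, Finset.mul_sum]
  · intro x hx
    have h1 := inner_pow f l hf 1 x
    rw [pow_one] at h1
    rw [h1, Complex.ofReal_re]
    calc |∑ i, l i ^ 1 * ‖⟪f i, x⟫_ℂ‖ ^ 2| ≤ ∑ i, |l i ^ 1 * ‖⟪f i, x⟫_ℂ‖ ^ 2| :=
          Finset.abs_sum_le_sum_abs _ _
      _ ≤ ∑ i, 1 / 4 * ‖⟪f i, x⟫_ℂ‖ ^ 2 := by
          refine Finset.sum_le_sum (fun i _ => ?_)
          rw [abs_mul, pow_one, abs_of_nonneg (by positivity : (0:ℝ) ≤ ‖⟪f i, x⟫_ℂ‖ ^ 2)]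
          by_cases hi : 1 / 4 < |l i|
          · have : ⟪f i, x⟫_ℂ = 0 := hx (f i) (Finset.mem_image.2 ⟨i, Finset.mem_filter.2 ⟨Finset.mem_univ _, hi⟩, rfl⟩)
            rw [this]; simp
          · exact mul_le_mul_of_nonneg_right (not_lt.1 hi) (by positivity)
      _ = 1 / 4 * ‖x‖ ^ 2 := by rw [← Finset.mul_sum, sum_sq_inner]

end extract

end Pool.Agent.Lib.MP_0baf06_lc
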