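import Pool.Agent.Lib.MP_0baf06_lc.Masa

/-!
The main theorem.
-/

open scoped InnerProductSpace BigOperators Topology

set_option linter.unusedSectionVars false

namespace Pool.Agent.Lib.MP_0baf06_lc

variable {H : Type*} [NormedAddCommGroup H] [InnerProductSpace ℂ H] [CompleteSpace H]

/-- The orthonormal bases indexed by `ℕ`. -/
def ONB (H : Type*) [NormedAddCommGroup H] [InnerProductSpace ℂ H] : Type _ :=
  {e : ℕ → H // Orthonormal ℂ e ∧ (Submodule.span ℂ (Set.range e)).topologicalClosure = ⊤}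

lemma exists_code (H : Type*) [NormedAddCommGroup H] [InnerProductSpace ℂ H]
    [TopologicalSpace.SeparableSpace H] :
    ∃ x : ONB H → (ℕ → Bool), Function.Injective x := by
  haveI : SecondCountableTopology H := UniformSpace.secondCountable_of_separable H
  letI : MeasurableSpace (ℕ → H) := borel _
  haveI : BorelSpace (ℕ → H) := ⟨rfl⟩
  obtain ⟨f, -, hf⟩ := MeasurableSpace.measurable_injection_nat_bool_of_countablySeparated (ℕ → H)
  exact ⟨fun e => f e.1, fun e e' h => Subtype.ext (hf h)⟩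

lemma countable_orthonormal [TopologicalSpace.SeparableSpace H] {w : Set H}
    (hw : Orthonormal ℂ (Subtype.val : w → H)) : w.Countable := by
  classical
  have hd : w.PairwiseDisjoint (fun x => Metric.ball x (1 / 2)) := by
    intro x hx y hy hxy
    rw [Function.onFun, Set.disjoint_left]
    intro z hz1 hz2
    have h0 := orthonormal_subtype_iff_ite.1 hw
    have h1 : ⟪x, y⟫_ℂ = 0 := by rw [h0 x hx y hy, if_neg hxy]
    have h2 : ‖x‖ = 1 := hw.1 ⟨x, hx⟩
    have h3 : ‖y‖ = 1 := hw.1 ⟨y, hy⟩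
    have h4 : ‖x - y‖ ^ 2 = 2 := by
      rw [@norm_sub_sq ℂ, h1, h2, h3]; norm_num
    have h5 : dist x y < 1 := by
      calc dist x y ≤ dist x z + dist z y := dist_triangle _ _ _
        _ < 1 / 2 + 1 / 2 := add_lt_add (by rw [dist_comm]; exact hz1) hz2
        _ = 1 := by norm_num
    rw [dist_eq_norm] at h5
    nlinarith [norm_nonneg (x - y)]
  exact hd.countable_of_isOpen (fun _ _ => Metric.isOpen_ball)
    (fun x _ => ⟨x, Metric.mem_ball_self (by norm_num)⟩)

lemma infinite_index (hH : ¬ FiniteDimensional ℂ H) {w : Set H} (B : HilbertBasis w ℂ H) :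
    Infinite w := by
  by_contra hcon
  rw [not_infinite_iff_finite] at hcon
  haveI := Fintype.ofFinite w
  exact hH (B.toOrthonormalBasis.toBasis.finiteDimensional_of_finite)

lemma exists_orthonormal_Idx (hH : ¬ FiniteDimensional ℂ H) :
    ∃ b : Idx → H, Orthonormal ℂ b := by
  obtain ⟨w, B, hB⟩ := exists_hilbertBasis ℂ H
  haveI := infinite_index hH B
  haveI : Countable Idx := inferInstance
  obtain ⟨f, hf⟩ := exists_injective_nat Idx
  let g : ℕ ↪ w := Infinite.natEmbedding w
  refine ⟨fun i => B (g (f i)), ?_⟩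
  exact B.orthonormal.comp (fun i => g (f i)) (g.injective.comp hf)

theorem exists_pure_balanced [TopologicalSpace.SeparableSpace H] (hH : ¬ FiniteDimensional ℂ H) :
    ∃ φ : (H →L[ℂ] H) →ₗ[ℂ] ℂ, IsPureState φ ∧
      ∀ e : ℕ → H, Orthonormal ℂ e → (Submodule.span ℂ (Set.range e)).topologicalClosure = ⊤ →
        ∃ S : Set ℕ, 1 / 4 ≤ (φ (spanProj (e '' S))).re ∧ (φ (spanProj (e '' S))).re ≤ 3 / 4 := by
  obtain ⟨x, hx⟩ := exists_code H
  obtain ⟨b, hb⟩ := exists_orthonormal_Idx hH
  let E : ONB H → HilbertBasis ℕ ℂ H := fun e => HilbertBasis.mk e.2.1 e.2.2.ge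
  have hE : ∀ e : ONB H, ⇑(E e) = e.1 := fun e => HilbertBasis.coe_mk _ _
  obtain ⟨σ, Q, hQc, hQ, hF⟩ := main_family b hb E x hx
  obtain ⟨φ, hφp, hφ1⟩ := exists_pure (fun e => spanProj (Q e : Set H))
    (fun e => spanProj_star _) (fun e => spanProj_mul_self _) (by
      intro F
      obtain ⟨y, hy0, hy⟩ := hF F
      exact ⟨y, hy0, fun a ha => spanProj_mem _ (hy a ha)⟩)
  refine ⟨φ, hφp, fun e he1 he2 => ?_⟩
  set a : ONB H := ⟨e, he1, he2⟩ with ha
  refine ⟨{i | σ a i = true}, ?_⟩
  have hEa : ⇑(E a) = e := hE a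
  have hφ := hφp.1
  set q := spanProj (Q a : Set H) with hq
  set p := spanProj (e '' {i | σ a i = true}) with hp
  set r := refl (e '' {i | σ a i = true}) with hr
  have hrs : star r = r := by
    rw [ContinuousLinearMap.star_eq_adjoint, eq_comm, ContinuousLinearMap.eq_adjoint_iff]
    exact refl_symm _
  have hform : |(φ (q * r * q)).re| ≤ 1 / 2 := by
    refine hφ.mono_of_form ?_ ?_
    · rw [isSelfAdjoint_iff, star_mul, star_mul, hrs, spanProj_star, mul_assoc]
    · intro y
      have h1 : ⟪y, (q * r * q) y⟫_ℂ = ⟪q y, r (q y)⟫_ℂ := by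
        rw [ContinuousLinearMap.mul_apply, ContinuousLinearMap.mul_apply, hq, spanProj_symm]
      rw [h1, hr, refl_quad]
      have h2 : q y ∈ Q a := by
        have h3 := spanProj_range (Q a : Set H) y
        rw [Submodule.span_eq, (hQc a).submodule_topologicalClosure_eq] at h3
        exact h3
      have h4 := hQ a (q y) h2
      rw [hEa] at h4
      refine h4.trans ?_
      have h5 : ‖q y‖ ≤ ‖y‖ := by
        have h6 := (q.le_opNorm y)
        have h7 : ‖q‖ ≤ 1 := Submodule.starProjection_norm_le _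
        nlinarith [norm_nonneg y]
      have h8 : ‖q y‖ ^ 2 ≤ ‖y‖ ^ 2 := pow_le_pow_left₀ (norm_nonneg _) h5 2
      linarith
  rw [hφ.compress (spanProj_star _) (spanProj_mul_self _) (hφ1 a)] at hform
  have hre : (φ r).re = 2 * (φ p).re - 1 := by
    rw [hr, refl, map_sub, map_smul, hφ.1, Complex.sub_re, Complex.one_re, smul_eq_mul,
      show (2 : ℂ) = ((2 : ℝ) : ℂ) by norm_num, Complex.re_ofReal_mul]
  rw [hre, abs_le] at hform
  constructor <;> linarith [hform.1, hform.2]

end Pool.Agent.Lib.MP_0baf06_lc
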