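import Pool.Agent.Lib.MP_0baf06_lc.Pure

/-!
Masas and their common eigenvectors.
-/

open scoped InnerProductSpace BigOperators Topology

set_option linter.unusedSectionVars false

namespace Pool.Agent.Lib.MP_0baf06_lc

variable {H : Type*} [NormedAddCommGroup H] [InnerProductSpace ℂ H] [CompleteSpace H]

/-- A masa of `B(H)`: a maximal abelian self-adjoint subalgebra. -/
def IsMasa (A : StarSubalgebra ℂ (H →L[ℂ] H)) : Prop :=
  (∀ a ∈ A, ∀ b ∈ A, a * b = b * a) ∧
    ∀ B : StarSubalgebra ℂ (H →L[ℂ] H), A ≤ B → (∀ a ∈ B, ∀ b ∈ B, a * b = b * a) → B ≤ A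

/-- The common eigenvectors of all elements of `A`. -/
def eigenvectors (A : StarSubalgebra ℂ (H →L[ℂ] H)) : Set H :=
  {x | ∀ a ∈ A, ∃ c : ℂ, a x = c • x}

/-- The restriction of `φ` to `A` is multiplicative. -/
def MultiplicativeOn (φ : (H →L[ℂ] H) →ₗ[ℂ] ℂ) (A : StarSubalgebra ℂ (H →L[ℂ] H)) : Prop :=
  ∀ a ∈ A, ∀ b ∈ A, φ (a * b) = φ a * φ b

variable {A : StarSubalgebra ℂ (H →L[ℂ] H)}

lemma spanProj_star (s : Set H) : star (spanProj s) = spanProj s := by
  rw [ContinuousLinearMap.star_eq_adjoint, eq_comm, ContinuousLinearMap.eq_adjoint_iff]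
  exact spanProj_symm s

lemma spanProj_mul_self (s : Set H) : spanProj s * spanProj s = spanProj s := by
  ext x
  exact spanProj_idem s x

lemma spanProj_range (s : Set H) (x : H) : spanProj s x ∈ (Submodule.span ℂ s).topologicalClosure :=
  Submodule.starProjection_apply_mem _ x

/-- The projection onto the span of common eigenvectors commutes with `A`. -/
lemma spanProj_comm (s : Set H) (hs : s ⊆ eigenvectors A) (a : H →L[ℂ] H) (ha : a ∈ A) (x : H) :
    spanProj s (a x) = a (spanProj s x) := by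
  set K := (Submodule.span ℂ s).topologicalClosure with hK
  have hinv : ∀ c ∈ A, ∀ y ∈ K, c y ∈ K := by
    intro c hc y hy
    have h1 : ∀ y ∈ Submodule.span ℂ s, c y ∈ Submodule.span ℂ s := by
      intro y hy
      refine Submodule.span_induction (fun z hz => ?_) ?_ ?_ ?_ hy
      · obtain ⟨l, hl⟩ := hs hz c hc
        rw [hl]
        exact Submodule.smul_mem _ _ (Submodule.subset_span hz)
      · rw [map_zero]; exact zero_mem _
      · intro u v _ _ hu hv
        rw [map_add]; exact add_mem hu hv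
      · intro l u _ hu
        rw [map_smul]; exact Submodule.smul_mem _ _ hu
    have h2 : IsClosed {y : H | c y ∈ K} :=
      (Submodule.isClosed_topologicalClosure _).preimage c.continuous
    exact closure_minimal (s := (Submodule.span ℂ s : Set H)) (t := {y : H | c y ∈ K})
      (fun z hz => Submodule.le_topologicalClosure (Submodule.span ℂ s) (h1 z hz)) h2 hy
  have h3 : a x = a (spanProj s x) + a (x - spanProj s x) := by
    rw [← map_add]; congr 1; abel
  refine Submodule.eq_starProjection_of_mem_orthogonal' (z := a (x - spanProj s x))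
    (hinv a ha _ (spanProj_range s x)) ?_ h3
  rw [Submodule.mem_orthogonal]
  intro k hk
  have h4 : star a k ∈ K := hinv _ (star_mem ha) k hk
  rw [← ContinuousLinearMap.adjoint_inner_left, ← ContinuousLinearMap.star_eq_adjoint]
  exact (Submodule.mem_orthogonal _ _).1 (Submodule.sub_starProjection_mem_orthogonal x) _ h4

/-- A self-adjoint operator commuting with a masa belongs to the masa. -/
lemma IsMasa.mem_of_comm (hA : IsMasa A) {p : H →L[ℂ] H} (hp : star p = p)
    (hc : ∀ a ∈ A, a * p = p * a) : p ∈ A := by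
  set s : Set (H →L[ℂ] H) := insert p (A : Set (H →L[ℂ] H)) with hs
  have hstar : ∀ x ∈ s, star x ∈ s := by
    rintro x (rfl | hx)
    · rw [hp]; exact Set.mem_insert _ _
    · exact Set.mem_insert_of_mem _ (star_mem hx)
  have hcomm : ∀ x ∈ s, ∀ y ∈ s, x * y = y * x := by
    rintro x (rfl | hx) y (rfl | hy)
    · rfl
    · exact (hc y hy).symm
    · exact hc x hx
    · exact hA.1 x hx y hy
  have hmc := StarAlgebra.isMulCommutative_adjoin ℂ hcomm
    (fun x hx y hy => hcomm x hx _ (hstar y hy))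
  have hB := hA.2 (StarAlgebra.adjoin ℂ s)
    (fun a ha => StarAlgebra.subset_adjoin ℂ s (Set.mem_insert_of_mem _ ha)) (by
      intro a ha b hb
      have := hmc.is_comm.comm ⟨a, ha⟩ ⟨b, hb⟩
      exact congrArg Subtype.val this)
  exact hB (StarAlgebra.subset_adjoin ℂ s (Set.mem_insert _ _))

lemma IsMasa.spanProj_mem (hA : IsMasa A) (s : Set H) (hs : s ⊆ eigenvectors A) :
    spanProj s ∈ A := by
  refine hA.mem_of_comm (spanProj_star s) (fun a ha => ?_)
  ext x
  exact (spanProj_comm s hs a ha x).symm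

/-- A maximal orthonormal set of common eigenvectors. -/
lemma exists_maximal_orthonormal_eigen (A : StarSubalgebra ℂ (H →L[ℂ] H)) :
    ∃ O : Set H, O ⊆ eigenvectors A ∧ Orthonormal ℂ ((↑) : O → H) ∧
      ∀ x ∈ eigenvectors A, x ∈ (Submodule.span ℂ O).topologicalClosure := by
  classical
  obtain ⟨O, hO⟩ := zorn_subset {s : Set H | s ⊆ eigenvectors A ∧ Orthonormal ℂ ((↑) : s → H)} (by
    intro c hc hchain
    refine ⟨⋃₀ c, ⟨Set.sUnion_subset (fun s hs => (hc hs).1), ?_⟩, fun s hs =>
      Set.subset_sUnion_of_mem hs⟩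
    exact orthonormal_sUnion_of_directed hchain.directedOn (fun s hs => (hc hs).2))
  have hO1 := hO.prop
  refine ⟨O, hO1.1, hO1.2, ?_⟩
  intro x hx
  by_contra hcon
  set y : H := x - spanProj O x with hy
  have hy0 : y ≠ 0 := by
    intro h
    apply hcon
    rw [sub_eq_zero] at h
    rw [h]
    exact spanProj_range O x
  have hyE : y ∈ eigenvectors A := by
    intro a ha
    obtain ⟨l, hl⟩ := hx a ha
    refine ⟨l, ?_⟩
    rw [hy, map_sub, ← spanProj_comm O hO1.1 a ha, hl, map_smul, smul_sub]
  have hyO : ∀ z ∈ O, ⟪z, y⟫_ℂ = 0 := by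
    intro z hz
    have h1 := Submodule.sub_starProjection_mem_orthogonal
      (K := (Submodule.span ℂ O).topologicalClosure) x
    exact (Submodule.mem_orthogonal _ _).1 h1 z
      (Submodule.le_topologicalClosure _ (Submodule.subset_span hz))
  set z : H := ((‖y‖ : ℂ)⁻¹) • y with hz
  have hz1 : ‖z‖ = 1 := by
    rw [hz, norm_smul, norm_inv, Complex.norm_real, norm_norm]
    exact inv_mul_cancel₀ (norm_ne_zero_iff.2 hy0)
  have hzE : z ∈ eigenvectors A := by
    intro a ha
    obtain ⟨l, hl⟩ := hyE a ha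
    refine ⟨l, ?_⟩
    rw [hz, map_smul, hl, smul_comm]
  have hzO : ∀ w ∈ O, ⟪w, z⟫_ℂ = 0 := by
    intro w hw
    rw [hz, inner_smul_right, hyO w hw, mul_zero]
  have hzn : z ∉ O := by
    intro h
    have := hzO z h
    rw [inner_self_eq_norm_sq_to_K, hz1] at this
    norm_num at this
  have hins : Orthonormal ℂ (Subtype.val : ↥(insert z O : Set H) → H) := by
    rw [orthonormal_subtype_iff_ite]
    have h0 := orthonormal_subtype_iff_ite.1 hO1.2
    rintro u (rfl | hu) v (rfl | hv)
    · rw [if_pos rfl, inner_self_eq_norm_sq_to_K, hz1]; norm_num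
    · rw [if_neg (by rintro rfl; exact hzn hv), ← inner_conj_symm, hzO v hv, map_zero]
    · rw [if_neg (by rintro rfl; exact hzn hu), hzO u hu]
    · exact h0 u hu v hv
  have hmax := hO.le_of_ge (y := insert z O)
    ⟨Set.insert_subset hzE hO1.1, hins⟩ (Set.subset_insert _ _)
  exact hzn (hmax (Set.mem_insert _ _))

end Pool.Agent.Lib.MP_0baf06_lc
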