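import Pool.Agent.Lib.MP_0baf06_lc.Cosh

/-!
Coordinate subspaces of a tensor power of `ℂ^d`, realised as functions on `S → Fin d`.
-/

open scoped InnerProductSpace BigOperators

set_option linter.unusedSectionVars false

namespace Pool.Agent.Lib.MP_0baf06_lc

variable {S : Type*} [Fintype S] [DecidableEq S] {d : ℕ}

/-- Functions on `S → Fin d`, i.e. the tensor product of `|S|` copies of `ℂ^d`. -/
abbrev V (S : Type*) [Fintype S] (d : ℕ) := EuclideanSpace ℂ (S → Fin d)

/-- The subspace of the vectors which at the coordinate `s` are `(±1, …, ±1)` with signs `ε`. -/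
def W (s : S) (ε : Fin d → Bool) : Submodule ℂ (V S d) where
  carrier := {f | ∀ ω a, f (Function.update ω s a) = (sg (ε a) * sg (ε (ω s)) : ℂ) * f ω}
  add_mem' := by
    intro f g hf hg ω a
    simp only [PiLp.add_apply, hf ω a, hg ω a]; ring
  zero_mem' := by intro ω a; simp
  smul_mem' := by
    intro c f hf ω a
    simp only [PiLp.smul_apply, hf ω a, smul_eq_mul]; ring

/-- Freeze the coordinate `s` at `a`. -/
noncomputable def R (s : S) (a : Fin d) (w : V S d) : V S d :=
  WithLp.toLp 2 (fun ω => w (Function.update ω s a))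

@[simp] lemma R_apply (s : S) (a : Fin d) (w : V S d) (ω : S → Fin d) :
    R s a w ω = w (Function.update ω s a) := rfl

lemma sum_update {M : Type*} [AddCommMonoid M] (s : S) (g : (S → Fin d) → M) :
    ∑ a : Fin d, ∑ ω : S → Fin d, g (Function.update ω s a) = d • ∑ ω, g ω := by
  have : ∑ a : Fin d, ∑ ω : S → Fin d, g (Function.update ω s a) =
      ∑ p : Fin d × (S → Fin d), g p.2 := by
    rw [← Fintype.sum_prod_type' (fun (a : Fin d) (ω : S → Fin d) => g (Function.update ω s a))]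
    have hinv : ∀ p : Fin d × (S → Fin d), (fun p : Fin d × (S → Fin d) =>
        (p.2 s, Function.update p.2 s p.1)) ((fun p : Fin d × (S → Fin d) =>
        (p.2 s, Function.update p.2 s p.1)) p) = p := by
      rintro ⟨a, ω⟩; simp
    let e : Fin d × (S → Fin d) ≃ Fin d × (S → Fin d) :=
      ⟨fun p => (p.2 s, Function.update p.2 s p.1), fun p => (p.2 s, Function.update p.2 s p.1),
        hinv, hinv⟩
    exact Fintype.sum_equiv e _ _ (fun p => rfl)
  rw [this, Fintype.sum_prod_type]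
  simp

lemma sum_norm_R (s : S) (w : V S d) : ∑ a, ‖R s a w‖ ^ 2 = d * ‖w‖ ^ 2 := by
  have : ∀ a, ‖R s a w‖ ^ 2 = ∑ ω : S → Fin d, ‖w (Function.update ω s a)‖ ^ 2 := by
    intro a
    rw [EuclideanSpace.norm_sq_eq]
    rfl
  rw [Finset.sum_congr rfl (fun a _ => this a), sum_update s (fun ω => ‖w ω‖ ^ 2),
    EuclideanSpace.norm_sq_eq, nsmul_eq_mul]

/-- The signed sum of the frozen vectors. -/
noncomputable def Sv (s : S) (ε : Fin d → Bool) (w : V S d) : V S d :=
  ∑ a, (sg (ε a) : ℂ) • R s a w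

lemma inner_W_le (s : S) (ε : Fin d → Bool) {x : V S d} (hx : x ∈ W s ε) (w : V S d) :
    d * ‖⟪x, w⟫_ℂ‖ ≤ ‖x‖ * ‖Sv s ε w‖ := by
  set y : V S d := WithLp.toLp 2 (fun ω => (sg (ε (ω s)) : ℂ) * x ω) with hy
  have hyn : ‖y‖ = ‖x‖ := by
    have : ‖y‖ ^ 2 = ‖x‖ ^ 2 := by
      rw [EuclideanSpace.norm_sq_eq, EuclideanSpace.norm_sq_eq]
      refine Finset.sum_congr rfl (fun ω _ => ?_)
      simp only [hy]
      rw [norm_mul, Complex.norm_real, Real.norm_eq_abs, abs_sg, one_mul]
    exact (pow_left_inj₀ (norm_nonneg _) (norm_nonneg _) two_ne_zero).1 this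
  have hyω : ∀ ω a, y ω = (sg (ε a) : ℂ) * x (Function.update ω s a) := by
    intro ω a
    rw [hx ω a]
    have h := sg_mul_self (ε a)
    have h' : (sg (ε a) : ℂ) * (sg (ε a) : ℂ) = 1 := by exact_mod_cast h
    calc y ω = (sg (ε (ω s)) : ℂ) * x ω := rfl
      _ = ((sg (ε a) : ℂ) * (sg (ε a) : ℂ)) * ((sg (ε (ω s)) : ℂ) * x ω) := by rw [h', one_mul]
      _ = _ := by ring
  have key : ⟪y, Sv s ε w⟫_ℂ = d * ⟪x, w⟫_ℂ := by
    have h1 : ⟪y, Sv s ε w⟫_ℂ = ∑ a, ∑ ω : S → Fin d,
        (w (Function.update ω s a)) * (starRingEnd ℂ) (x (Function.update ω s a)) := by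
      rw [Sv, inner_sum]
      refine Finset.sum_congr rfl (fun a _ => ?_)
      rw [inner_smul_right, PiLp.inner_apply, Finset.mul_sum]
      refine Finset.sum_congr rfl (fun ω _ => ?_)
      rw [R_apply, RCLike.inner_apply, hyω ω a, map_mul, Complex.conj_ofReal]
      have h := sg_mul_self (ε a)
      have h' : (sg (ε a) : ℂ) * (sg (ε a) : ℂ) = 1 := by exact_mod_cast h
      calc _ = ((sg (ε a) : ℂ) * (sg (ε a) : ℂ)) * (w (Function.update ω s a) *
            (starRingEnd ℂ) (x (Function.update ω s a))) := by ring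
        _ = _ := by rw [h', one_mul]
    rw [h1, sum_update s (fun ω => w ω * (starRingEnd ℂ) (x ω)), PiLp.inner_apply, nsmul_eq_mul]
    congr 1
  have h2 : ‖⟪y, Sv s ε w⟫_ℂ‖ ≤ ‖y‖ * ‖Sv s ε w‖ := norm_inner_le_norm _ _
  rw [key, norm_mul, hyn] at h2
  simpa using h2

/-- Many coordinates can be prescribed simultaneously, together with few linear constraints. -/
theorem exists_common (hd : 0 < d) (T : Finset S) (ε : S → Fin d → Bool) (L : Finset (V S d))
    (hL : L.card < d ^ (Fintype.card S - T.card)) :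
    ∃ f : V S d, f ≠ 0 ∧ (∀ s ∈ T, f ∈ W s (ε s)) ∧ ∀ v ∈ L, ⟪v, f⟫_ℂ = 0 := by
  classical
  let Φ : (({s // s ∉ T} → Fin d) → ℂ) →ₗ[ℂ] V S d :=
    { toFun := fun g => WithLp.toLp 2 (fun ω => (∏ s ∈ T, (sg (ε s (ω s)) : ℂ)) *
        g (fun s => ω s.1))
      map_add' := by
        intro g h
        ext ω
        simp [mul_add]
      map_smul' := by
        intro c g
        ext ω
        simp only [Pi.smul_apply, smul_eq_mul, RingHom.id_apply, PiLp.smul_apply]
        ring }
  have hΦ : ∀ g ω, Φ g ω = (∏ s ∈ T, (sg (ε s (ω s)) : ℂ)) * g (fun s => ω s.1) := fun _ _ => rfl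
  have hinj : Function.Injective Φ := by
    rw [← LinearMap.ker_eq_bot, LinearMap.ker_eq_bot']
    intro g hg
    funext τ
    let ω : S → Fin d := fun s => if h : s ∉ T then τ ⟨s, h⟩ else ⟨0, hd⟩
    have h1 : Φ g ω = 0 := by rw [hg]; rfl
    rw [hΦ] at h1
    have h2 : (fun s : {s // s ∉ T} => ω s.1) = τ := by
      funext s
      simp only [ω, dif_pos s.2]
    rw [h2] at h1
    rcases mul_eq_zero.1 h1 with h | h
    · exfalso
      rw [Finset.prod_eq_zero_iff] at h
      obtain ⟨s, -, hs⟩ := h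
      have h' := abs_sg (ε s (ω s))
      have : sg (ε s (ω s)) = 0 := Complex.ofReal_eq_zero.1 hs
      rw [this, abs_zero] at h'
      exact zero_ne_one h'
    · exact h
  let Ψ : (({s // s ∉ T} → Fin d) → ℂ) →ₗ[ℂ] (L → ℂ) :=
    LinearMap.pi (fun v => (innerₛₗ ℂ v.1) ∘ₗ Φ)
  have hker : LinearMap.ker Ψ ≠ ⊥ := by
    apply LinearMap.ker_ne_bot_of_finrank_lt
    rw [Module.finrank_fintype_fun_eq_card, Module.finrank_fintype_fun_eq_card, Fintype.card_coe,
      Fintype.card_fun, Fintype.card_fin]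
    have : Fintype.card {s // s ∉ T} = Fintype.card S - T.card := by
      rw [Fintype.card_subtype_compl, Fintype.card_coe]
    rw [this]
    exact hL
  obtain ⟨g, hg, hg0⟩ := (Submodule.ne_bot_iff _).1 hker
  refine ⟨Φ g, fun h => hg0 (hinj (by rw [h, map_zero])), ?_, ?_⟩
  · intro s hs ω a
    rw [hΦ, hΦ]
    have h1 : (fun t : {s // s ∉ T} => Function.update ω s a t.1) = fun t => ω t.1 := by
      funext t
      have : t.1 ≠ s := fun h => t.2 (h ▸ hs)
      simp [this]
    rw [h1, ← Finset.mul_prod_erase T _ hs, ← Finset.mul_prod_erase T (fun t => (sg (ε t (ω t)) : ℂ)) hs]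
    have h2 : ∏ t ∈ T.erase s, (sg (ε t (Function.update ω s a t)) : ℂ) =
        ∏ t ∈ T.erase s, (sg (ε t (ω t)) : ℂ) := by
      refine Finset.prod_congr rfl (fun t ht => ?_)
      rw [Function.update_of_ne (Finset.ne_of_mem_erase ht)]
    rw [h2, Function.update_self]
    have h := sg_mul_self (ε s (ω s))
    have h' : (sg (ε s (ω s)) : ℂ) * (sg (ε s (ω s)) : ℂ) = 1 := by exact_mod_cast h
    calc (sg (ε s a) : ℂ) * (∏ t ∈ T.erase s, (sg (ε t (ω t)) : ℂ)) * g (fun t => ω t.1)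
        = ((sg (ε s (ω s)) : ℂ) * (sg (ε s (ω s)) : ℂ)) *
          ((sg (ε s a) : ℂ) * (∏ t ∈ T.erase s, (sg (ε t (ω t)) : ℂ)) * g (fun t => ω t.1)) := by
          rw [h', one_mul]
      _ = _ := by ring
  · intro v hv
    have := congrFun (LinearMap.mem_ker.1 hg) ⟨v, hv⟩
    simpa [Ψ] using this

end Pool.Agent.Lib.MP_0baf06_lc
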