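import Pool.Agent.Lib.MP_0baf06_lc.Block

/-!
Choice of the parameters.
-/

namespace Pool.Agent.Lib.MP_0baf06_lc

/-- The constant which bounds the number of constraints. -/
def Cc (k : ℕ) : ℕ := 2 * (2 * (2 * k + 1)).factorial + 2 ^ (k + 2) * (64 * (2 * k + 1)) ^ (2 * k + 1)

/-- The next parameter. -/
def Dof (k F : ℕ) : ℕ := 2 * k * Cc k + 2 * k * F + 2

/-- The total dimension of the first `k` blocks. -/
def FF : ℕ → ℕ
  | 0 => 0
  | k + 1 => FF k + ((Dof k (FF k)) ^ 2) ^ (2 ^ k)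

/-- The parameter of the `k`-th block. -/
def DD (k : ℕ) : ℕ := Dof k (FF k)

lemma DD_two (k : ℕ) : 2 ≤ DD k := by
  unfold DD Dof; omega

lemma FF_eq (k : ℕ) : FF k = ∑ l ∈ Finset.range k, ((DD l) ^ 2) ^ (2 ^ l) := by
  induction k with
  | zero => rfl
  | succ k ih => rw [Finset.sum_range_succ, ← ih]; rfl

lemma param (k n : ℕ) (hn : n ≤ k) :
    (n : ℝ) * (2 * (2 * (2 * k + 1)).factorial * (((DD k : ℝ) ^ 2) ^ (2 ^ k)) / (DD k : ℝ) ^ (2 * k + 1) +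
      16 ^ (2 * k + 1) * (2 ^ (k + 2) * ((4 * ((2 * k + 1 : ℕ) : ℝ) * (1 / (DD k : ℝ))) ^ (2 * k + 1) *
        ((DD k : ℝ) ^ 2) ^ (2 ^ k))) + FF k) < ((DD k : ℝ) ^ 2) ^ (2 ^ k - n) := by
  have hk : k + 1 ≤ 2 ^ k := Nat.lt_two_pow_self
  set D : ℝ := (DD k : ℝ) with hD
  have hD2 : (2 : ℝ) ≤ D := by rw [hD]; exact_mod_cast DD_two k
  have hD0 : (0 : ℝ) < D := by linarith
  set P : ℝ := (D ^ 2) ^ (2 ^ k - n) with hP
  have hDeq : D = 2 * k * Cc k + 2 * k * FF k + 2 := by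
    rw [hD]; unfold DD Dof; push_cast; ring
  have hPD : D ≤ P := by
    calc D = D ^ 1 := (pow_one D).symm
      _ ≤ D ^ (2 * (2 ^ k - n)) := pow_le_pow_right₀ (by linarith) (by omega)
      _ = P := by rw [hP, pow_mul]
  have hN : (D ^ 2) ^ (2 ^ k) = P * D ^ (2 * n) := by
    rw [hP, pow_mul D 2 n, ← pow_add]; congr 1; omega
  have hNr : (D ^ 2) ^ (2 ^ k) / D ^ (2 * k + 1) ≤ P / D := by
    rw [hN, div_le_div_iff₀ (by positivity) hD0, mul_assoc, ← pow_succ]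
    exact mul_le_mul_of_nonneg_left (pow_le_pow_right₀ (by linarith) (by omega)) (by positivity)
  have hterm : 2 * ((2 * (2 * k + 1)).factorial : ℝ) * (D ^ 2) ^ (2 ^ k) / D ^ (2 * k + 1) +
      16 ^ (2 * k + 1) * (2 ^ (k + 2) * ((4 * ((2 * k + 1 : ℕ) : ℝ) * (1 / D)) ^ (2 * k + 1) *
        (D ^ 2) ^ (2 ^ k))) = Cc k * ((D ^ 2) ^ (2 ^ k) / D ^ (2 * k + 1)) := by
    have h64 : (16 : ℝ) ^ (2 * k + 1) * (4 * ((2 * k + 1 : ℕ) : ℝ) * (1 / D)) ^ (2 * k + 1) =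
        (64 * ((2 * k + 1 : ℕ) : ℝ)) ^ (2 * k + 1) / D ^ (2 * k + 1) := by
      rw [← mul_pow, ← div_pow]
      congr 1
      field_simp
      ring
    calc _ = 2 * ((2 * (2 * k + 1)).factorial : ℝ) * ((D ^ 2) ^ (2 ^ k) / D ^ (2 * k + 1)) +
        2 ^ (k + 2) * ((16 : ℝ) ^ (2 * k + 1) * (4 * ((2 * k + 1 : ℕ) : ℝ) * (1 / D)) ^ (2 * k + 1)) *
          (D ^ 2) ^ (2 ^ k) := by ring
      _ = _ := by
        rw [h64]
        unfold Cc
        push_cast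
        ring
  rw [hterm]
  have h1 : (n : ℝ) * (Cc k * ((D ^ 2) ^ (2 ^ k) / D ^ (2 * k + 1))) ≤ (k : ℝ) * (Cc k * (P / D)) := by
    have hnk : (n : ℝ) ≤ k := by exact_mod_cast hn
    gcongr
  have h2 : (k : ℝ) * (Cc k * (P / D)) ≤ P / 2 := by
    have : (k : ℝ) * (Cc k * (P / D)) = ((k : ℝ) * Cc k / D) * P := by ring
    rw [this]
    have h3 : (k : ℝ) * Cc k / D ≤ 1 / 2 := by
      rw [div_le_div_iff₀ hD0 (by norm_num), hDeq]
      have : (0 : ℝ) ≤ k * FF k := by positivity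
      nlinarith
    calc _ ≤ (1 / 2) * P := by gcongr
      _ = P / 2 := by ring
  have h3 : (n : ℝ) * FF k < P / 2 := by
    have hnk : (n : ℝ) ≤ k := by exact_mod_cast hn
    have h4 : (n : ℝ) * FF k ≤ k * FF k := by gcongr
    have h5 : (0 : ℝ) ≤ k * Cc k := by positivity
    nlinarith
  calc _ = (n : ℝ) * (Cc k * ((D ^ 2) ^ (2 ^ k) / D ^ (2 * k + 1))) + n * FF k := by ring
    _ < P / 2 + P / 2 := by linarith
    _ = P := by ring

end Pool.Agent.Lib.MP_0baf06_lc
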