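import Pool.Agent.Lib.MP_0baf06_lc.Assembly

/-!
Diagonal projections.
-/

open scoped InnerProductSpace BigOperators Topology

set_option linter.unusedSectionVars false

namespace Pool.Agent.Lib.MP_0baf06_lc

variable {H : Type*} [NormedAddCommGroup H] [InnerProductSpace ℂ H] [CompleteSpace H]

/-- The orthogonal projection onto the closed linear span of a set of vectors. -/
noncomputable def spanProj (s : Set H) : H →L[ℂ] H :=
  ((Submodule.span ℂ s).topologicalClosure).starProjection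

lemma spanProj_mem (s : Set H) {x : H} (hx : x ∈ s) : spanProj s x = x :=
  Submodule.starProjection_eq_self_iff.2
    (Submodule.le_topologicalClosure _ (Submodule.subset_span hx))

lemma spanProj_orth (s : Set H) {x : H} (hx : ∀ y ∈ s, ⟪y, x⟫_ℂ = 0) : spanProj s x = 0 := by
  refine (Submodule.starProjection_apply_eq_zero_iff (K := (Submodule.span ℂ s).topologicalClosure)).2 ?_
  rw [Submodule.mem_orthogonal]
  have hcl : IsClosed {y : H | ⟪y, x⟫_ℂ = 0} :=
    isClosed_eq (continuous_id.inner continuous_const) continuous_const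
  have hsp : ((Submodule.span ℂ s : Submodule ℂ H) : Set H) ⊆ {y : H | ⟪y, x⟫_ℂ = 0} := by
    intro y hy
    refine Submodule.span_induction (fun z hz => hx z hz) (inner_zero_left _) ?_ ?_ hy
    · intro u v _ _ hu hv
      show ⟪u + v, x⟫_ℂ = 0
      rw [inner_add_left, hu, hv, add_zero]
    · intro a u _ hu
      show ⟪a • u, x⟫_ℂ = 0
      rw [inner_smul_left, hu, mul_zero]
  intro y hy
  exact closure_minimal hsp hcl hy

lemma spanProj_symm (s : Set H) (x y : H) : ⟪spanProj s x, y⟫_ℂ = ⟪x, spanProj s y⟫_ℂ :=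
  Submodule.starProjection_isSymmetric _ x y

lemma spanProj_idem (s : Set H) (x : H) : spanProj s (spanProj s x) = spanProj s x :=
  Submodule.starProjection_eq_self_iff.2 (Submodule.starProjection_apply_mem _ x)

/-- Parseval. -/
lemma parseval (e : HilbertBasis ℕ ℂ H) (z : H) :
    HasSum (fun i => ‖⟪e i, z⟫_ℂ‖ ^ 2) (‖z‖ ^ 2) := by
  have h := e.hasSum_inner_mul_inner z z
  rw [← Complex.hasSum_ofReal]
  have e1 : ⟪z, z⟫_ℂ = ((‖z‖ ^ 2 : ℝ) : ℂ) := by
    rw [inner_self_eq_norm_sq_to_K]; push_cast; rfl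
  have e2 : (fun i => ⟪z, e i⟫_ℂ * ⟪e i, z⟫_ℂ) = fun i => ((‖⟪e i, z⟫_ℂ‖ ^ 2 : ℝ) : ℂ) := by
    funext i
    rw [← inner_conj_symm z (e i), Complex.conj_mul']
    push_cast
    rfl
  rw [e1, e2] at h
  exact h

open Classical in
lemma inner_spanProj (e : HilbertBasis ℕ ℂ H) (S : Set ℕ) (y : H) (i : ℕ) :
    ⟪e i, spanProj (e '' S) y⟫_ℂ = if i ∈ S then ⟪e i, y⟫_ℂ else 0 := by
  rw [← spanProj_symm]
  split_ifs with h
  · rw [spanProj_mem _ (Set.mem_image_of_mem _ h)]
  · rw [spanProj_orth, inner_zero_left]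
    rintro _ ⟨j, hj, rfl⟩
    rw [orthonormal_iff_ite.1 e.orthonormal, if_neg]
    rintro rfl
    exact h hj

/-- Parseval for a diagonal projection. -/
lemma hasSum_proj (e : HilbertBasis ℕ ℂ H) (σ : ℕ → Bool) (y : H) :
    HasSum (fun i => sg (σ i) * ‖⟪e i, y⟫_ℂ‖ ^ 2)
      (2 * ‖spanProj (e '' {i | σ i = true}) y‖ ^ 2 - ‖y‖ ^ 2) := by
  have h1 := (parseval e (spanProj (e '' {i | σ i = true}) y)).mul_left 2
  have h2 := h1.sub (parseval e y)
  have h3 : (fun i => 2 * ‖⟪e i, (spanProj (⇑e '' {i | σ i = true})) y⟫_ℂ‖ ^ 2 -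
      ‖⟪e i, y⟫_ℂ‖ ^ 2) = fun i => sg (σ i) * ‖⟪e i, y⟫_ℂ‖ ^ 2 := by
    funext i
    rw [inner_spanProj]
    by_cases h : σ i = true
    · rw [if_pos (show i ∈ {i | σ i = true} from h), h, sg_true]
      ring
    · rw [if_neg (show ¬ i ∈ {i | σ i = true} from h)]
      have h' : σ i = false := by simpa using h
      rw [h', sg_false, norm_zero]
      ring
  rw [h3] at h2
  exact h2

end Pool.Agent.Lib.MP_0baf06_lc
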