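import Pool.Agent.Lib.MP_0baf06_lc.States

/-!
Existence of a pure state supported by a family of projections with the finite intersection
property.
-/

open scoped InnerProductSpace BigOperators Topology

set_option linter.unusedSectionVars false

namespace Pool.Agent.Lib.MP_0baf06_lc

variable {H : Type*} [NormedAddCommGroup H] [InnerProductSpace ℂ H] [CompleteSpace H]

variable {φ : (H →L[ℂ] H) →ₗ[ℂ] ℂ}

lemma IsState.compress (hφ : IsState φ) {q : H →L[ℂ] H} (hqs : star q = q) (hqi : q * q = q)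
    (h1 : φ q = 1) (a : H →L[ℂ] H) : φ (q * a * q) = φ a := by
  have hs : star (1 - q) = 1 - q := by rw [star_sub, star_one, hqs]
  have hi : (1 - q) * (1 - q) = 1 - q := by
    rw [mul_sub, sub_mul, sub_mul, hqi]; simp
  have h0 : φ (1 - q) = 0 := by rw [map_sub, hφ.1, h1, sub_self]
  have hl : ∀ b, φ ((1 - q) * b) = 0 := by
    intro b
    have h := hφ.cs (1 - q) b
    rw [hs, hi, h0, Complex.zero_re, zero_mul] at h
    have h2 : ‖φ ((1 - q) * b)‖ = 0 := by
      have := sq_nonneg ‖φ ((1 - q) * b)‖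
      exact pow_eq_zero_iff two_ne_zero |>.1 (le_antisymm h this)
    exact norm_eq_zero.1 h2
  have hr : ∀ b, φ (b * (1 - q)) = 0 := by
    intro b
    have h := hφ.cs (star b) (1 - q)
    rw [hs, hi, h0, Complex.zero_re, mul_zero, star_star] at h
    have h2 : ‖φ (b * (1 - q))‖ = 0 := by
      have := sq_nonneg ‖φ (b * (1 - q))‖
      exact pow_eq_zero_iff two_ne_zero |>.1 (le_antisymm h this)
    exact norm_eq_zero.1 h2
  have e : a = q * a * q + (q * a * (1 - q) + (1 - q) * a) := by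
    rw [mul_sub, sub_mul]; simp
  conv_rhs => rw [e, map_add, map_add, hl, hr, add_zero, add_zero]

/-- The set of states, as a set of functions. -/
def SS0 : Set ((H →L[ℂ] H) → ℂ) :=
  {f | (∀ a b, f (a + b) = f a + f b) ∧ (∀ (c : ℂ) (a : H →L[ℂ] H), f (c • a) = c * f a) ∧
    f 1 = 1 ∧ ∀ a : H →L[ℂ] H, a.IsPositive → 0 ≤ (f a).re ∧ (f a).im = 0}

/-- The linear functional. -/
def toLin (f : (H →L[ℂ] H) → ℂ) (hf : f ∈ SS0 (H := H)) : (H →L[ℂ] H) →ₗ[ℂ] ℂ where
  toFun := f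
  map_add' := hf.1
  map_smul' := hf.2.1

lemma toLin_state (f : (H →L[ℂ] H) → ℂ) (hf : f ∈ SS0 (H := H)) : IsState (toLin f hf) :=
  ⟨hf.2.2.1, hf.2.2.2⟩

lemma IsState.mem (hφ : IsState φ) : (⇑φ : (H →L[ℂ] H) → ℂ) ∈ SS0 (H := H) :=
  ⟨map_add φ, fun c a => by rw [map_smul, smul_eq_mul], hφ.1, hφ.2⟩

lemma isClosed_SS0 : IsClosed (SS0 (H := H)) := by
  have hc : ∀ a : H →L[ℂ] H, Continuous (fun f : (H →L[ℂ] H) → ℂ => f a) := fun a =>
    continuous_apply a
  have e : SS0 (H := H) =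
      (⋂ a, ⋂ b, {f | f (a + b) = f a + f b}) ∩
      ((⋂ c : ℂ, ⋂ a, {f | f (c • a) = c * f a}) ∩
      ({f | f 1 = 1} ∩ ⋂ a : H →L[ℂ] H, ⋂ _ : a.IsPositive, {f | 0 ≤ (f a).re} ∩ {f | (f a).im = 0})) := by
    ext f
    simp [SS0]
  rw [e]
  refine IsClosed.inter ?_ (IsClosed.inter ?_ (IsClosed.inter ?_ ?_))
  · exact isClosed_iInter (fun a => isClosed_iInter (fun b =>
      isClosed_eq (hc _) ((hc a).add (hc b))))
  · exact isClosed_iInter (fun c => isClosed_iInter (fun a =>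
      isClosed_eq (hc _) (continuous_const.mul (hc a))))
  · exact isClosed_eq (hc _) continuous_const
  · refine isClosed_iInter (fun a => isClosed_iInter (fun _ => IsClosed.inter ?_ ?_))
    · exact isClosed_le continuous_const (Complex.continuous_re.comp (hc a))
    · exact isClosed_eq (Complex.continuous_im.comp (hc a)) continuous_const

lemma isCompact_SS0 : IsCompact (SS0 (H := H)) := by
  have h1 : IsCompact (Set.pi Set.univ (fun a : H →L[ℂ] H => Metric.closedBall (0 : ℂ) ‖a‖)) :=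
    isCompact_univ_pi (fun a => isCompact_closedBall _ _)
  refine h1.of_isClosed_subset isClosed_SS0 ?_
  intro f hf a _
  rw [mem_closedBall_zero_iff]
  exact (toLin_state f hf).norm_le a

/-- Vector states. -/
lemma vector_state (y : H) (hy : ‖y‖ = 1) :
    (fun a : H →L[ℂ] H => ⟪y, a y⟫_ℂ) ∈ SS0 (H := H) := by
  refine ⟨fun a b => ?_, fun c a => ?_, ?_, ?_⟩
  · show ⟪y, (a + b) y⟫_ℂ = ⟪y, a y⟫_ℂ + ⟪y, b y⟫_ℂ
    rw [ContinuousLinearMap.add_apply, inner_add_right]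
  · show ⟪y, (c • a) y⟫_ℂ = c * ⟪y, a y⟫_ℂ
    rw [ContinuousLinearMap.smul_apply, inner_smul_right]
  · show ⟪y, (1 : H →L[ℂ] H) y⟫_ℂ = 1
    rw [ContinuousLinearMap.one_apply, inner_self_eq_norm_sq_to_K, hy]; norm_num
  · intro a ha
    have h := ha.inner_nonneg_right y
    rw [Complex.nonneg_iff] at h
    exact ⟨h.1, h.2.symm⟩

lemma state_proj_le {q : H →L[ℂ] H} (hqs : star q = q) (hqi : q * q = q) (hφ : IsState φ) :
    0 ≤ (φ q).re ∧ (φ q).re ≤ 1 ∧ (φ q).im = 0 := by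
  have hp : q.IsPositive := by
    have := pos_star_mul q
    rwa [hqs, hqi] at this
  have hs : star (1 - q) = 1 - q := by rw [star_sub, star_one, hqs]
  have hi : (1 - q) * (1 - q) = 1 - q := by
    rw [mul_sub, sub_mul, sub_mul, hqi]; simp
  have hp' : (1 - q).IsPositive := by
    have := pos_star_mul (1 - q)
    rwa [hs, hi] at this
  have h1 := hφ.2 q hp
  have h2 := (hφ.2 _ hp').1
  rw [map_sub, hφ.1, Complex.sub_re, Complex.one_re] at h2
  exact ⟨h1.1, by linarith, h1.2⟩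

/-- A family of projections with the finite intersection property supports a pure state. -/
theorem exists_pure {ι : Type*} (q : ι → H →L[ℂ] H) (hqs : ∀ a, star (q a) = q a)
    (hqi : ∀ a, q a * q a = q a)
    (hF : ∀ F : Finset ι, ∃ y : H, y ≠ 0 ∧ ∀ a ∈ F, q a y = y) :
    ∃ φ : (H →L[ℂ] H) →ₗ[ℂ] ℂ, IsPureState φ ∧ ∀ a, φ (q a) = 1 := by
  classical
  set K : Set ((H →L[ℂ] H) → ℂ) := SS0 ∩ ⋂ a, {f | f (q a) = 1} with hK
  have hKc : IsCompact K := isCompact_SS0.inter_right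
    (isClosed_iInter (fun a => isClosed_eq (continuous_apply _) continuous_const))
  have hKn : K.Nonempty := by
    refine isCompact_SS0.inter_iInter_nonempty _
      (fun a => isClosed_eq (continuous_apply _) continuous_const) ?_
    intro F
    obtain ⟨y, hy0, hy⟩ := hF F
    set z : H := ((‖y‖ : ℂ)⁻¹) • y with hz
    have hz1 : ‖z‖ = 1 := by
      rw [hz, norm_smul, norm_inv, Complex.norm_real, norm_norm]
      exact inv_mul_cancel₀ (norm_ne_zero_iff.2 hy0)
    refine ⟨fun a => ⟪z, a z⟫_ℂ, vector_state z hz1, Set.mem_iInter₂.2 (fun a ha => ?_)⟩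
    show ⟪z, q a z⟫_ℂ = 1
    have : q a z = z := by rw [hz, map_smul, hy a ha]
    rw [this, inner_self_eq_norm_sq_to_K, hz1]; norm_num
  obtain ⟨f, hf⟩ := hKc.extremePoints_nonempty hKn
  rw [mem_extremePoints] at hf
  obtain ⟨hfK, hfe⟩ := hf
  refine ⟨toLin f hfK.1, ⟨toLin_state f hfK.1, ?_⟩, fun a => Set.mem_iInter.1 hfK.2 a⟩
  intro φ₁ φ₂ h₁ h₂ t ht0 ht1 heq
  have hval : ∀ a, f a = (t : ℂ) * φ₁ a + ((1 - t : ℝ) : ℂ) * φ₂ a := by
    intro a
    have := LinearMap.congr_fun heq a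
    simpa [toLin] using this
  have hq1 : ∀ a, φ₁ (q a) = 1 ∧ φ₂ (q a) = 1 := by
    intro a
    have e1 := state_proj_le (hqs a) (hqi a) h₁
    have e2 := state_proj_le (hqs a) (hqi a) h₂
    have e3 := congrArg Complex.re (hval (q a))
    have e4 : f (q a) = 1 := Set.mem_iInter.1 hfK.2 a
    rw [e4, Complex.one_re, Complex.add_re, Complex.re_ofReal_mul, Complex.re_ofReal_mul] at e3
    have e5 : (φ₁ (q a)).re = 1 := by nlinarith
    have e6 : (φ₂ (q a)).re = 1 := by nlinarith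
    exact ⟨Complex.ext e5 e1.2.2, Complex.ext e6 e2.2.2⟩
  have hk1 : (⇑φ₁ : (H →L[ℂ] H) → ℂ) ∈ K := ⟨h₁.mem, Set.mem_iInter.2 (fun a => (hq1 a).1)⟩
  have hk2 : (⇑φ₂ : (H →L[ℂ] H) → ℂ) ∈ K := ⟨h₂.mem, Set.mem_iInter.2 (fun a => (hq1 a).2)⟩
  have hseg : f ∈ openSegment ℝ (⇑φ₁ : (H →L[ℂ] H) → ℂ) ⇑φ₂ := by
    refine ⟨t, 1 - t, ht0, by linarith, by ring, ?_⟩
    funext a
    rw [hval a]
    simp [Pi.add_apply, Pi.smul_apply]
  obtain ⟨r1, r2⟩ := hfe _ hk1 _ hk2 hseg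
  constructor
  · apply LinearMap.ext
    intro a
    exact congrFun r1 a
  · apply LinearMap.ext
    intro a
    exact congrFun r2 a

end Pool.Agent.Lib.MP_0baf06_lc
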