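import Pool.Agent.Lib.MP_0baf06_lc.Params

/-!
Choice of a sequence of signs which is good for all blocks.
-/

namespace Pool.Agent.Lib.MP_0baf06_lc

lemma geo_sum (K : ℕ) : ∑ k ∈ Finset.range K, (1 : ℝ) / 2 ^ (k + 2) = 1 / 2 - 1 / 2 ^ (K + 1) := by
  induction K with
  | zero => norm_num
  | succ K ih =>
    rw [Finset.sum_range_succ, ih]
    have : (2 : ℝ) ^ (K + 2) = 2 * 2 ^ (K + 1) := by ring
    rw [this]
    field_simp
    ring

lemma good_signs_fin (M : ℕ → ℕ) (b : ℕ → (ℕ → Bool) → ℝ) (c : ℕ → ℝ) (hc : ∀ k, 0 < c k)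
    (h0 : ∀ k σ, 0 ≤ b k σ)
    (havg : ∀ k M', M k ≤ M' → ∑ σ : Fin M' → Bool, b k (ext σ) ≤ 2 ^ M' * c k) (K : ℕ) :
    ∃ σ, ∀ k < K, b k σ ≤ 2 ^ (k + 2) * c k := by
  set M' := (Finset.range K).sup M with hM'
  have hM : ∀ k ∈ Finset.range K, M k ≤ M' := fun k hk => Finset.le_sup (f := M) hk
  set Φ : (Fin M' → Bool) → ℝ := fun τ => ∑ k ∈ Finset.range K, b k (ext τ) / (2 ^ (k + 2) * c k)
    with hΦ
  have hsum : ∑ τ, Φ τ ≤ 2 ^ M' * (1 / 2) := by
    simp only [hΦ]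
    rw [Finset.sum_comm]
    calc ∑ k ∈ Finset.range K, ∑ τ : Fin M' → Bool, b k (ext τ) / (2 ^ (k + 2) * c k)
        ≤ ∑ k ∈ Finset.range K, 2 ^ M' * (1 / 2 ^ (k + 2)) := by
          refine Finset.sum_le_sum (fun k hk => ?_)
          rw [← Finset.sum_div, div_le_iff₀ (by have := hc k; positivity)]
          refine (havg k M' (hM k hk)).trans (le_of_eq ?_)
          field_simp
      _ = 2 ^ M' * (1 / 2 - 1 / 2 ^ (K + 1)) := by rw [← Finset.mul_sum, geo_sum]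
      _ ≤ _ := by
          have : (0 : ℝ) ≤ 1 / 2 ^ (K + 1) := by positivity
          gcongr
          linarith
  have hex : ∃ τ, Φ τ ≤ 1 := by
    by_contra hcon
    push Not at hcon
    have h4 : ∑ τ : Fin M' → Bool, (1 : ℝ) < ∑ τ, Φ τ :=
      Finset.sum_lt_sum_of_nonempty Finset.univ_nonempty (fun τ _ => hcon τ)
    rw [Finset.sum_const, Finset.card_univ, Fintype.card_fun, Fintype.card_bool, Fintype.card_fin,
      nsmul_eq_mul, mul_one] at h4
    push_cast at h4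
    have : (0 : ℝ) < 2 ^ M' := by positivity
    linarith
  obtain ⟨τ, hτ⟩ := hex
  refine ⟨ext τ, fun k hk => ?_⟩
  have h1 : b k (ext τ) / (2 ^ (k + 2) * c k) ≤ Φ τ :=
    Finset.single_le_sum (f := fun k => b k (ext τ) / (2 ^ (k + 2) * c k))
      (fun j _ => by have := hc j; have := h0 j (ext τ); positivity) (Finset.mem_range.2 hk)
  have h2 := h1.trans hτ
  rwa [div_le_one (by have := hc k; positivity)] at h2

lemma isClosed_dep (M : ℕ) (b : (ℕ → Bool) → ℝ)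
    (hdep : ∀ σ σ' : ℕ → Bool, (∀ i < M, σ i = σ' i) → b σ = b σ') (c : ℝ) :
    IsClosed {σ | b σ ≤ c} := by
  have hb : b = (fun τ : Fin M → Bool => b (ext τ)) ∘ (fun σ i => σ i.1) := by
    funext σ
    refine hdep _ _ (fun i hi => ?_)
    simp [ext, hi]
  have hcont : Continuous b := by
    rw [hb]
    refine Continuous.comp continuous_of_discreteTopology ?_
    exact continuous_pi (fun i => continuous_apply i.1)
  exact isClosed_le hcont continuous_const

theorem good_signs (M : ℕ → ℕ) (b : ℕ → (ℕ → Bool) → ℝ) (c : ℕ → ℝ) (hc : ∀ k, 0 < c k)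
    (h0 : ∀ k σ, 0 ≤ b k σ)
    (hdep : ∀ k, ∀ σ σ' : ℕ → Bool, (∀ i < M k, σ i = σ' i) → b k σ = b k σ')
    (havg : ∀ k M', M k ≤ M' → ∑ σ : Fin M' → Bool, b k (ext σ) ≤ 2 ^ M' * c k) :
    ∃ σ, ∀ k, b k σ ≤ 2 ^ (k + 2) * c k := by
  set C : ℕ → Set (ℕ → Bool) := fun K => ⋂ k ∈ Finset.range K, {σ | b k σ ≤ 2 ^ (k + 2) * c k}
    with hC
  have hcl : ∀ K, IsClosed (C K) := fun K =>
    isClosed_biInter (fun k _ => isClosed_dep (M k) (b k) (hdep k) _)
  have hne : (⋂ K, C K).Nonempty := by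
    refine IsCompact.nonempty_iInter_of_sequence_nonempty_isCompact_isClosed C ?_ ?_ ?_ hcl
    · intro K
      simp only [hC]
      refine Set.biInter_subset_biInter_left ?_
      intro k hk
      exact Finset.mem_coe.2 (Finset.range_mono (Nat.le_succ K) hk)
    · intro K
      obtain ⟨σ, hσ⟩ := good_signs_fin M b c hc h0 havg K
      exact ⟨σ, Set.mem_iInter₂.2 (fun k hk => hσ k (Finset.mem_range.1 hk))⟩
    · exact (hcl 0).isCompact
  obtain ⟨σ, hσ⟩ := hne
  refine ⟨σ, fun k => ?_⟩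
  have := Set.mem_iInter.1 hσ (k + 1)
  exact Set.mem_iInter₂.1 this k (Finset.mem_range.2 (Nat.lt_succ_self k))

end Pool.Agent.Lib.MP_0baf06_lc
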