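import Pool.Agent.Lib.MP_0baf06_lc.Fip

/-!
States of `B(H)`.
-/

open scoped InnerProductSpace BigOperators Topology

set_option linter.unusedSectionVars false

namespace Pool.Agent.Lib.MP_0baf06_lc

variable {H : Type*} [NormedAddCommGroup H] [InnerProductSpace ℂ H] [CompleteSpace H]

/-- A state of `B(H)`: a positive linear functional which takes the value `1` at the identity. -/
def IsState (φ : (H →L[ℂ] H) →ₗ[ℂ] ℂ) : Prop :=
  φ 1 = 1 ∧ ∀ a : H →L[ℂ] H, a.IsPositive → 0 ≤ (φ a).re ∧ (φ a).im = 0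

/-- A pure state of `B(H)`: an extreme point of the convex set of states. -/
def IsPureState (φ : (H →L[ℂ] H) →ₗ[ℂ] ℂ) : Prop :=
  IsState φ ∧ ∀ φ₁ φ₂ : (H →L[ℂ] H) →ₗ[ℂ] ℂ, IsState φ₁ → IsState φ₂ →
    ∀ t : ℝ, 0 < t → t < 1 → φ = (t : ℂ) • φ₁ + ((1 - t : ℝ) : ℂ) • φ₂ → φ₁ = φ ∧ φ₂ = φ

variable {φ : (H →L[ℂ] H) →ₗ[ℂ] ℂ}

lemma pos_star_mul (a : H →L[ℂ] H) : (star a * a).IsPositive :=
  ContinuousLinearMap.isPositive_adjoint_comp_self a

lemma IsState.herm (hφ : IsState φ) (x : H →L[ℂ] H) : φ (star x) = (starRingEnd ℂ) (φ x) := by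
  have h0 := (hφ.2 _ (pos_star_mul x)).2
  have h1 := (hφ.2 _ (pos_star_mul (1 + x))).2
  have h2 := (hφ.2 _ (pos_star_mul (1 + Complex.I • x))).2
  have e1 : star (1 + x) * (1 + x) = 1 + x + star x + star x * x := by
    rw [star_add, star_one]; noncomm_ring
  have e2 : star (1 + Complex.I • x) * (1 + Complex.I • x) =
      1 + Complex.I • x - Complex.I • star x + star x * x := by
    rw [star_add, star_one, star_smul]
    simp only [RCLike.star_def, Complex.conj_I, neg_smul, add_mul, mul_add, one_mul, mul_one,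
      neg_mul, smul_mul_assoc, mul_smul_comm, smul_smul, Complex.I_mul_I]
    simp only [smul_add, smul_neg, smul_smul, Complex.I_mul_I, neg_smul, one_smul, neg_neg]
    abel
  rw [e1] at h1
  rw [e2] at h2
  simp only [map_add, map_sub, map_smul, hφ.1, Complex.add_im, Complex.sub_im, h0, smul_eq_mul,
    Complex.mul_im, Complex.I_re, Complex.I_im, Complex.one_im, zero_mul, one_mul, zero_add,
    add_zero] at h1 h2
  apply Complex.ext
  · rw [Complex.conj_re]; linarith
  · rw [Complex.conj_im]; linarith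

/-- The semi-inner product of a state. -/
@[reducible] noncomputable def core (hφ : IsState φ) : PreInnerProductSpace.Core ℂ (H →L[ℂ] H) where
  inner a b := φ (star a * b)
  conj_inner_symm a b := by
    rw [← hφ.herm, star_mul, star_star]
  re_inner_nonneg a := (hφ.2 _ (pos_star_mul a)).1
  add_left a b c := by rw [star_add, add_mul, map_add]
  smul_left a b r := by
    rw [star_smul, smul_mul_assoc, map_smul, smul_eq_mul]; rfl

lemma IsState.cs (hφ : IsState φ) (a b : H →L[ℂ] H) :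
    ‖φ (star a * b)‖ ^ 2 ≤ (φ (star a * a)).re * (φ (star b * b)).re := by
  have h := @InnerProductSpace.Core.inner_mul_inner_self_le ℂ (H →L[ℂ] H) _ _ _ (core hφ) a b
  have h1 : ‖φ (star b * a)‖ = ‖φ (star a * b)‖ := by
    have : φ (star b * a) = (starRingEnd ℂ) (φ (star a * b)) := by
      rw [← hφ.herm, star_mul, star_star]
    rw [this, RCLike.norm_conj]
  have h2 : ‖φ (star a * b)‖ * ‖φ (star b * a)‖ ≤ (φ (star a * a)).re * (φ (star b * b)).re := h
  rw [h1] at h2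
  rw [sq]
  exact h2

lemma IsState.mono_of_form (hφ : IsState φ) {a : H →L[ℂ] H} (ha : IsSelfAdjoint a) {c : ℝ}
    (h : ∀ x, |(⟪x, a x⟫_ℂ).re| ≤ c * ‖x‖ ^ 2) : |(φ a).re| ≤ c := by
  have hsymm : ∀ x y, ⟪a x, y⟫_ℂ = ⟪x, a y⟫_ℂ := fun x y => ha.isSymmetric x y
  have key : ∀ s : ℝ, |s| = 1 → ((c : ℂ) • (1 : H →L[ℂ] H) + (s : ℂ) • a).IsPositive := by
    intro s hs
    refine ⟨?_, ?_⟩
    · intro x y
      simp only [ContinuousLinearMap.coe_coe, ContinuousLinearMap.add_apply,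
        ContinuousLinearMap.smul_apply, ContinuousLinearMap.one_apply, inner_add_left,
        inner_add_right, inner_smul_left, inner_smul_right, Complex.conj_ofReal, hsymm]
    · intro x
      rw [ContinuousLinearMap.reApplyInnerSelf_apply]
      simp only [ContinuousLinearMap.add_apply, ContinuousLinearMap.smul_apply,
        ContinuousLinearMap.one_apply, inner_add_left, inner_smul_left, Complex.conj_ofReal, hsymm]
      have h1 : ⟪x, x⟫_ℂ = ((‖x‖ ^ 2 : ℝ) : ℂ) := by
        rw [inner_self_eq_norm_sq_to_K]; push_cast; rfl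
      rw [h1]
      show 0 ≤ ((c : ℂ) * ((‖x‖ ^ 2 : ℝ) : ℂ) + (s : ℂ) * ⟪x, a x⟫_ℂ).re
      rw [Complex.add_re, Complex.re_ofReal_mul, Complex.re_ofReal_mul, Complex.ofReal_re]
      have h2 := h x
      have h3 : |s * (⟪x, a x⟫_ℂ).re| ≤ c * ‖x‖ ^ 2 := by rw [abs_mul, hs, one_mul]; exact h2
      linarith [neg_abs_le (s * (⟪x, a x⟫_ℂ).re)]
  have h1 := (hφ.2 _ (key 1 (by norm_num))).1
  have h2 := (hφ.2 _ (key (-1) (by norm_num))).1
  simp only [map_add, map_smul, hφ.1, smul_eq_mul, mul_one, Complex.add_re, Complex.ofReal_re,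
    Complex.re_ofReal_mul] at h1 h2
  rw [abs_le]
  constructor <;> linarith

lemma IsState.norm_le (hφ : IsState φ) (a : H →L[ℂ] H) : ‖φ a‖ ≤ ‖a‖ := by
  have h1 := hφ.cs 1 a
  rw [star_one, one_mul, one_mul, hφ.1, Complex.one_re, one_mul] at h1
  have h2 : |(φ (star a * a)).re| ≤ ‖a‖ ^ 2 := by
    refine hφ.mono_of_form (IsSelfAdjoint.star_mul_self a) ?_
    intro x
    have h3 : ⟪x, (star a * a) x⟫_ℂ = ⟪a x, a x⟫_ℂ := by
      rw [ContinuousLinearMap.mul_apply, ContinuousLinearMap.star_eq_adjoint,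
        ContinuousLinearMap.adjoint_inner_right]
    rw [h3]
    have h4 : ⟪a x, a x⟫_ℂ = ((‖a x‖ ^ 2 : ℝ) : ℂ) := by
      rw [inner_self_eq_norm_sq_to_K]; push_cast; rfl
    rw [h4, Complex.ofReal_re, abs_of_nonneg (by positivity), ← mul_pow]
    exact pow_le_pow_left₀ (norm_nonneg _) (a.le_opNorm x) 2
  have h3 : ‖φ a‖ ^ 2 ≤ ‖a‖ ^ 2 := h1.trans ((le_abs_self _).trans h2)
  exact (pow_le_pow_iff_left₀ (norm_nonneg _) (norm_nonneg _) two_ne_zero).1 h3

end Pool.Agent.Lib.MP_0baf06_lc
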